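import Pool.Agent.H75.FK.RA3
import Pool.Agent.H75.HCI.GPC

/-!
# Board hci_modules: RA5, the s-part in the linked case
-/

set_option autoImplicit false

namespace Pool.Agent.H75.FK

open Set Pool.Agent.H75.HCI Pool.Agent.H16.FK

variable {kx k : ℕ} {L : Type} {T : List (Idx kx k) → L} {b0 : List (Fin kx)}

lemma exists_W0 (h : Lk T (hubA 0) (row 0 0)) : ∃ b0, W0 T b0 := by
  classical
  have hex : ∃ n, ∃ b : List (Fin kx), b.Nodup ∧ b.length = n ∧ Lk T (hub 0 b) (row 0 0) :=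
    ⟨_, List.finRange kx, List.nodup_finRange kx, rfl, h⟩
  obtain ⟨b, h1, h2, h3⟩ := Nat.find_spec hex
  refine ⟨b, h1, h3, fun b1 h4 _ h5 h6 => ?_⟩
  have h7 := Nat.find_min' hex ⟨b1, h4, rfl, h6⟩
  omega

lemma exists_cl (JJ : List (Fin kx) → Prop)
    (hJ : ∀ J J', JJ J → JJ J' → J'.Perm J ∨ J'.Disjoint J) :
    ∃ cl : Fin kx → Fin kx, ∀ b b', cl b = cl b' ↔ b = b' ∨ ∃ J, JJ J ∧ b ∈ J ∧ b' ∈ J := by
  classical
  let S : Setoid (Fin kx) := ⟨fun b b' => b = b' ∨ ∃ J, JJ J ∧ b ∈ J ∧ b' ∈ J, by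
    refine ⟨fun b => Or.inl rfl, ?_, ?_⟩
    · rintro b b' (rfl | ⟨J, h1, h2, h3⟩)
      · exact Or.inl rfl
      · exact Or.inr ⟨J, h1, h3, h2⟩
    · rintro a b c (rfl | ⟨J, h1, h2, h3⟩) h
      · exact h
      · rcases h with rfl | ⟨J', h1', h2', h3'⟩
        · exact Or.inr ⟨J, h1, h2, h3⟩
        · rcases hJ J J' h1 h1' with h4 | h4
          · exact Or.inr ⟨J, h1, h2, h4.mem_iff.1 h3'⟩
          · exact absurd h3 (fun h5 => h4 h2' h5)⟩
  refine ⟨fun b => (Quotient.mk S b).out, fun b b' => ?_⟩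
  rw [Quotient.out_inj]
  exact Quotient.eq

/-- Classes in late chunks in terms of bags. -/
lemma cls_iff {JJ : List (Fin kx) → Prop} {i0 : ℕ} {s : ℕ → ℕ} {cl : Fin kx → Fin kx}
    (hcl : ∀ b b', cl b = cl b' ↔ b = b' ∨ ∃ J, JJ J ∧ b ∈ J ∧ b' ∈ J)
    (hB : ∀ D : List (Idx kx k), (∀ p ∈ D, i0 ≤ p.1 ∧ p ∈ V kx k s) →
      (Bag T b0 s D ↔ (∃ i m, D.Perm (row i m)) ∨ ∃ i J, JJ J ∧ D = hub i J))
    {X Y : Idx kx k} (hX : X ∈ V kx k s) (hX0 : i0 ≤ X.1) :
    ec cl X = ec cl Y ↔ X = Y ∨ ∃ D : List (Idx kx k), (∀ p ∈ D, i0 ≤ p.1 ∧ p ∈ V kx k s) ∧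
      Bag T b0 s D ∧ X ∈ D ∧ Y ∈ D := by
  constructor
  · intro h
    obtain ⟨i, x⟩ := X
    obtain ⟨j, y⟩ := Y
    simp only [ec, Prod.mk.injEq] at h
    obtain ⟨rfl, h⟩ := h
    rcases x with b | ⟨m, c⟩ <;> rcases y with b' | ⟨m', c'⟩
    · simp only [Sum.elim_inl, Sum.inl.injEq] at h
      rcases (hcl b b').1 h with rfl | ⟨J, h1, h2, h3⟩
      · exact Or.inl rfl
      · right
        have hD : ∀ p ∈ (hub i J : List (Idx kx k)), i0 ≤ p.1 ∧ p ∈ V kx k s := by
          intro p hp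
          obtain ⟨b1, -, rfl⟩ := List.mem_map.1 hp
          exact ⟨hX0, fun u hu => absurd hu (by simp)⟩
        exact ⟨hub i J, hD, (hB _ hD).2 (Or.inr ⟨i, J, h1, rfl⟩), List.mem_map_of_mem h2,
          List.mem_map_of_mem h3⟩
    · exact absurd h (by simp)
    · exact absurd h (by simp)
    · simp only [Sum.elim_inr, Sum.inr.injEq] at h
      subst h
      right
      have hm : m < s i := hX (m, c) rfl
      have hD : ∀ p ∈ (row i m : List (Idx kx k)), i0 ≤ p.1 ∧ p ∈ V kx k s := by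
        intro p hp
        obtain ⟨y, -, rfl⟩ := List.mem_map.1 hp
        refine ⟨hX0, fun u hu => ?_⟩
        have hu' : (m, y) = u := Sum.inr.inj hu
        rw [← hu']
        exact hm
      exact ⟨row i m, hD, (hB _ hD).2 (Or.inl ⟨i, m, List.Perm.refl _⟩),
        List.mem_map.2 ⟨c, List.mem_finRange c, rfl⟩,
        List.mem_map.2 ⟨c', List.mem_finRange c', rfl⟩⟩
  · rintro (rfl | ⟨D, hD, hBD, h1, h2⟩)
    · rfl
    · rcases (hB D hD).1 hBD with ⟨i, m, h3⟩ | ⟨i, J, h3, rfl⟩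
      · obtain ⟨c, -, rfl⟩ := List.mem_map.1 (h3.mem_iff.1 h1)
        obtain ⟨c', -, rfl⟩ := List.mem_map.1 (h3.mem_iff.1 h2)
        rfl
      · obtain ⟨b, hb, rfl⟩ := List.mem_map.1 h1
        obtain ⟨b', hb', rfl⟩ := List.mem_map.1 h2
        simp only [ec, Prod.mk.injEq, Sum.elim_inl, Sum.inl.injEq, true_and]
        exact (hcl b b').2 (Or.inr ⟨J, h3, hb, hb'⟩)

/-- RA5 -/
theorem pf_RA5 (hR1 : T_RA1) (hR3 : T_RA3) (hR4 : T_RA4) (hR2 : T_RA2) : T_RA5 := by
  classical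
  intro kx k L T hA hk hColl hLk
  have hT := hA.pat
  obtain ⟨b0, hW⟩ := exists_W0 hLk
  obtain ⟨i0, N0, JJ, hJ1, hJ2, hJ3, hJ4⟩ := hR3 kx k L T b0 hA hk hW
  obtain ⟨cl, hcl⟩ := exists_cl JJ hJ2
  obtain ⟨s, s', g, hs, hs', hN, hN', heq, hfast, hI, hlow⟩ := hColl i0 (N0 + 1)
  have hB := hJ4 s hs fun i => (Nat.le_succ N0).trans (hN i)
  have hB' := hJ4 s' hs' fun i => (Nat.le_succ N0).trans (hN' i)
  have hφ : StrictMono fun i : ℕ => i0 + i := fun a b hab => by
    change i0 + a < i0 + b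
    omega
  set S : Idx kx k → Idx kx k := sh fun i => i0 + i with hS
  have hSV : ∀ p, S p ∈ V kx k s ↔ p ∈ V kx k fun i => s (i0 + i) := fun p => Iff.rfl
  have hSV' : ∀ p, S p ∈ V kx k s' ↔ p ∈ V kx k fun i => s' (i0 + i) := fun p => Iff.rfl
  have hun : ∀ q : Idx kx k, i0 ≤ q.1 → S (q.1 - i0, q.2) = q := by
    intro q hq
    refine Prod.ext ?_ rfl
    change i0 + (q.1 - i0) = q.1
    omega
  -- points of late chunks
  have hlowV : ∀ q : Idx kx k, q.1 < i0 → q ∈ V kx k s' → q ∈ V kx k s := by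
    intro q hq h u hu
    rw [heq _ hq]
    exact h u hu
  have hgV : ∀ p ∈ V kx k s, g p ∈ V kx k s' := fun p hp => by
    rw [← hI.img]
    exact ⟨p, hp, rfl⟩
  have hhigh : ∀ p ∈ V kx k s, (i0 ≤ p.1 ↔ i0 ≤ (g p).1) := by
    intro p hp
    constructor
    · intro h
      by_contra hcon
      have h1 := hlow _ (hlowV _ (not_le.1 hcon) (hgV p hp)) (not_le.1 hcon)
      have h2 := hI.inj (hlowV _ (not_le.1 hcon) (hgV p hp)) hp h1
      rw [h2] at hcon
      exact hcon h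
    · intro h
      by_contra hcon
      rw [hlow p hp (not_le.1 hcon)] at h
      exact hcon h
  set g1 : Idx kx k → Idx kx k := fun p => ((g (S p)).1 - i0, (g (S p)).2) with hg1
  have hSg : ∀ p ∈ V kx k (fun i => s (i0 + i)), S (g1 p) = g (S p) := by
    intro p hp
    refine hun _ ?_
    refine (hhigh (S p) ((hSV p).2 hp)).1 ?_
    change i0 ≤ i0 + p.1
    omega
  have hSinj : Function.Injective S := fun p q h => sh_inj hφ h
  have hTS : ∀ l : List (Idx kx k), T (l.map S) = T l := fun l =>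
    hT S univ (pat_sh hφ univ) l fun _ _ => mem_univ _
  have hecS : ∀ p q : Idx kx k, ec cl (S p) = ec cl (S q) ↔ ec cl p = ec cl q := fun p q =>
    sh_ec hφ p q
  -- the inverse of g
  have hinv : ∀ q ∈ V kx k s', ∃ p ∈ V kx k s, g p = q := by
    intro q hq
    rw [← hI.img] at hq
    exact hq
  choose! f hf1 hf2 using hinv
  have hcls : ∀ X ∈ V kx k s, ∀ Y ∈ V kx k s, i0 ≤ X.1 → i0 ≤ Y.1 →
      (ec cl (g X) = ec cl (g Y) ↔ ec cl X = ec cl Y) := by
    intro X hX Y hY hX0 hY0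
    rw [cls_iff hcl hB' (hgV X hX) ((hhigh X hX).1 hX0), cls_iff hcl hB hX hX0]
    constructor
    · rintro (h | ⟨D, hD, hBD, h1, h2⟩)
      · exact Or.inl (hI.inj hX hY h)
      · right
        have hm : (D.map f).map g = D := by
          rw [List.map_map]
          conv_rhs => rw [← List.map_id D]
          exact List.map_congr_left fun p hp => hf2 p (hD p hp).2
        have hDV : ∀ p ∈ D.map f, p ∈ V kx k s := by
          intro p hp
          obtain ⟨q, hq, rfl⟩ := List.mem_map.1 hp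
          exact hf1 q (hD q hq).2
        refine ⟨D.map f, fun p hp => ⟨?_, hDV p hp⟩, ?_, ?_, ?_⟩
        · rw [hhigh p (hDV p hp)]
          obtain ⟨q, hq, rfl⟩ := List.mem_map.1 hp
          rw [hf2 q (hD q hq).2]
          exact (hD q hq).1
        · rw [hR4 kx k L T b0 s s' g hI _ hDV, hm]
          exact hBD
        · have h3 : f (g X) = X := hI.inj (hf1 _ (hgV X hX)) hX (hf2 _ (hgV X hX))
          rw [← h3]
          exact List.mem_map_of_mem h1
        · have h3 : f (g Y) = Y := hI.inj (hf1 _ (hgV Y hY)) hY (hf2 _ (hgV Y hY))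
          rw [← h3]
          exact List.mem_map_of_mem h2
    · rintro (rfl | ⟨D, hD, hBD, h1, h2⟩)
      · exact Or.inl rfl
      · right
        refine ⟨D.map g, ?_, (hR4 kx k L T b0 s s' g hI D fun p hp => (hD p hp).2).1 hBD,
          List.mem_map_of_mem h1, List.mem_map_of_mem h2⟩
        intro p hp
        obtain ⟨q, hq, rfl⟩ := List.mem_map.1 hp
        exact ⟨(hhigh q (hD q hq).2).1 (hD q hq).1, hgV q (hD q hq).2⟩
  have hemb : Emb T (ec cl) T (ec cl) g1 (V kx k fun i => s (i0 + i)) := by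
    refine ⟨?_, ?_, ?_⟩
    · intro p hp q hq hpq
      have h1 : g (S p) = g (S q) := by rw [← hSg p hp, ← hSg q hq, hpq]
      exact hSinj (hI.inj ((hSV p).2 hp) ((hSV q).2 hq) h1)
    · intro l hl
      rw [← hTS (l.map g1), List.map_map]
      have h1 : l.map (S ∘ g1) = (l.map S).map g := by
        rw [List.map_map]
        exact List.map_congr_left fun p hp => hSg p (hl p hp)
      rw [h1, hI.lab, hTS]
      intro x hx
      obtain ⟨p, hp, rfl⟩ := List.mem_map.1 hx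
      exact (hSV p).2 (hl p hp)
    · intro x hx y hy
      rw [← hecS (g1 x) (g1 y), hSg x hx, hSg y hy, ← hecS x y]
      refine hcls _ ((hSV x).2 hx) _ ((hSV y).2 hy) ?_ ?_
      · change i0 ≤ i0 + x.1
        omega
      · change i0 ≤ i0 + y.1
        omega
  have himg : g1 '' (V kx k fun i => s (i0 + i)) = V kx k fun i => s' (i0 + i) := by
    ext q
    constructor
    · rintro ⟨p, hp, rfl⟩
      rw [← hSV', hSg p hp]
      exact hgV _ ((hSV p).2 hp)
    · intro hq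
      have hq' : S q ∈ V kx k s' := (hSV' q).2 hq
      have h1 : i0 ≤ (f (S q)).1 := by
        rw [hhigh _ (hf1 _ hq'), hf2 _ hq']
        change i0 ≤ i0 + q.1
        omega
      have h2 := hun _ h1
      refine ⟨((f (S q)).1 - i0, (f (S q)).2), ?_, ?_⟩
      · rw [← hSV, h2]
        exact hf1 _ hq'
      · apply hSinj
        rw [hSg _ ((hSV _).1 (by rw [h2]; exact hf1 _ hq')), h2]
        exact hf2 _ hq'
  obtain ⟨In, h1, h2⟩ := pf_GP kx k L cl T (fun i => s (i0 + i)) (fun i => s' (i0 + i)) g1 hk hT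
    (hs.comp hφ) (hs'.comp hφ) (fun i => by
      have := hN (i0 + i)
      change 1 ≤ s (i0 + i)
      omega) hfast hemb himg
  exact ⟨cl, In, h1, h2⟩

end Pool.Agent.H75.FK
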