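import Pool.Agent.H71.FK.UC

/-!
# Board hci_modules: SSX (bounded witnesses against strong splitting)
-/

set_option autoImplicit false

namespace Pool.Agent.H75.FK

open Set Pool.Agent.H75.HCI Pool.Agent.H41.HI Pool.Agent.H71.HCI Pool.Agent.H16.FK
  Pool.Agent.H71.FK

variable {C : Type} {M : List ℕ → C}

/-- An ultrafilter with given marginals. -/
lemma exists_joint {B : Type} {J : B → Type} (U : ∀ b, Ultrafilter (J b → ℕ)) :
    ∃ W : Ultrafilter ((Σ b, J b) → ℕ), ∀ b, re W (Sigma.mk b) = U b := by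
  classical
  let F : Filter (∀ b, J b → ℕ) := Filter.pi fun b => (U b : Filter (J b → ℕ))
  have : F.NeBot := inferInstance
  refine ⟨(Ultrafilter.of F).map fun x p => x p.1 p.2, fun b => ?_⟩
  refine Ultrafilter.coe_injective ?_
  have h1 : Filter.Tendsto (fun x : ∀ b, J b → ℕ => x b) (Ultrafilter.of F : Filter _)
      (U b : Filter (J b → ℕ)) :=
    (Filter.tendsto_eval_pi (fun b => (U b : Filter (J b → ℕ))) b).mono_left
      (Ultrafilter.of_le F)
  have h2 : (re ((Ultrafilter.of F).map fun x p => x p.1 p.2) (Sigma.mk b) :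
      Ultrafilter (J b → ℕ)) = (Ultrafilter.of F).map fun x => x b := rfl
  rw [h2]
  exact congrArg _ (Ultrafilter.coe_le_coe.1 h1)

lemma prU_re {I J K : Type} (V : Ultrafilter (I → ℕ)) (U : Ultrafilter (J → ℕ)) (f : K → J) :
    prU V (re U f) = re (prU V U) (Sum.map id f) := by
  refine uf_ext fun p => ?_
  rw [ev_prU, ev_re, ev_prU]
  refine Filter.eventually_congr (Filter.Eventually.of_forall fun x => ?_)
  rw [ev_re]
  refine Filter.eventually_congr (Filter.Eventually.of_forall fun y => ?_)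
  have h1 : Sum.elim x (y ∘ f) = Sum.elim x y ∘ Sum.map id f := by
    funext i
    rcases i with i | i <;> rfl
  rw [h1]

lemma typ_prU_re (hM : FinL M) {I J K : Type} (V : Ultrafilter (I → ℕ)) (U : Ultrafilter (J → ℕ))
    (f : K → J) (l : List (ℕ ⊕ (I ⊕ K))) :
    typ M (prU V (re U f)) l = typ M (prU V U) (l.map (Sum.map id (Sum.map id f))) := by
  rw [prU_re, typ_re hM]

lemma exists_lift {α β : Type} {φ : α → β} {l : List β} (h : ∀ x ∈ l, ∃ y, φ y = x) :
    ∃ l' : List α, l'.map φ = l := by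
  induction l with
  | nil => exact ⟨[], rfl⟩
  | cons x l ih =>
    obtain ⟨y, hy⟩ := h x (List.mem_cons_self ..)
    obtain ⟨l', hl'⟩ := ih fun z hz => h z (List.mem_cons_of_mem _ hz)
    exact ⟨y :: l', by rw [List.map_cons, hy, hl']⟩

open Classical in
/-- the constants of a word -/
noncomputable def cns {J : Type} (l : List (ℕ ⊕ J)) : Finset ℕ :=
  (l.filterMap fun x => x.elim some fun _ => none).toFinset

open Classical in
/-- the last coordinates of a word -/
noncomputable def crd {I J : Type} (l : List (ℕ ⊕ (I ⊕ J))) : Finset J :=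
  (l.filterMap fun x => x.elim (fun _ => none) fun y => y.elim (fun _ => none) some).toFinset

lemma mem_cns {J : Type} {l : List (ℕ ⊕ J)} {a : ℕ} (h : Sum.inl a ∈ l) : a ∈ cns l := by
  classical
  unfold cns
  rw [List.mem_toFinset, List.mem_filterMap]
  exact ⟨_, h, rfl⟩

lemma mem_crd {I J : Type} {l : List (ℕ ⊕ (I ⊕ J))} {j : J} (h : Sum.inr (Sum.inr j) ∈ l) :
    j ∈ crd l := by
  classical
  unfold crd
  rw [List.mem_toFinset, List.mem_filterMap]
  exact ⟨_, h, rfl⟩

lemma card_cns {J : Type} (l : List (ℕ ⊕ J)) : (cns l).card ≤ l.length := by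
  classical
  unfold cns
  exact (List.toFinset_card_le _).trans (List.length_filterMap_le ..)

lemma card_crd {I J : Type} (l : List (ℕ ⊕ (I ⊕ J))) : (crd l).card ≤ l.length := by
  classical
  unfold crd
  exact (List.toFinset_card_le _).trans (List.length_filterMap_le ..)

/-- SSX -/
theorem pf_SSX : T_SSX := by
  classical
  intro C r k M hM hr
  refine ⟨2 ^ k * r, fun V hV hb => ?_⟩
  have h0 : ∀ b : {b : Fin k → Bool // NC b}, ∃ (J : Type) (_ : Finite J)
      (U : Ultrafilter (J → ℕ)) (l : List (ℕ ⊕ (Fin k ⊕ J))), NP U ∧ l.length ≤ r ∧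
        typ M (prU V U) l ≠ typ M (prU (mixU V b.1) U) l := by
    rintro ⟨b, hbN⟩
    have h1 := hb b hbN
    unfold SS at h1
    push Not at h1
    obtain ⟨J, hJ, U, hU, h2⟩ := h1
    obtain ⟨l, hl⟩ := Function.ne_iff.1 h2
    refine ⟨J, hJ, U, l, hU, ?_, hl⟩
    by_contra h3
    exact hl (typ_long hr (not_le.1 h3) _ _)
  choose J hJ U l hU hl hd using h0
  have hB : Fintype.card {b : Fin k → Bool // NC b} ≤ 2 ^ k := by
    refine (Fintype.card_subtype_le _).trans ?_
    rw [Fintype.card_pi]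
    simp
  -- constants
  let S : Finset ℕ := Finset.univ.biUnion fun b => cns (l b)
  have hS : S.card ≤ 2 ^ k * r := by
    refine Finset.card_biUnion_le.trans ?_
    refine (Finset.sum_le_card_nsmul _ _ r fun b _ => (card_cns _).trans (hl b)).trans ?_
    rw [smul_eq_mul, Finset.card_univ]
    exact Nat.mul_le_mul_right _ hB
  -- coordinates
  obtain ⟨W, hW⟩ := exists_joint fun b => re (U b) (Subtype.val : {j // j ∈ crd (l b)} → J b)
  obtain ⟨mu, e, s, hes⟩ := exists_quot W
  have hs : Function.Injective s := by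
    obtain ⟨x, -, hx⟩ := hes.exists
    exact fun i j hij => hx (congrArg x hij)
  have hmu : mu ≤ 2 ^ k * r := by
    have h1 := Fintype.card_le_of_injective s hs
    rw [Fintype.card_fin, Fintype.card_sigma] at h1
    refine h1.trans ?_
    refine (Finset.sum_le_card_nsmul _ _ r fun b _ => ?_).trans ?_
    · rw [Fintype.card_coe]
      exact (card_crd _).trans (hl b)
    · rw [smul_eq_mul, Finset.card_univ]
      exact Nat.mul_le_mul_right _ hB
  have hWNP : NP W := by
    rintro ⟨b, i⟩ a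
    have h1 : ∀ᶠ x in (re (U b) (Subtype.val : {j // j ∈ crd (l b)} → J b) :
        Filter ({j // j ∈ crd (l b)} → ℕ)), x i ≠ a := np_re (hU b) _ i a
    rw [← hW b, ev_re] at h1
    exact h1
  have hWe : re (re W s) e = W := by
    refine uf_ext fun p => ?_
    rw [ev_re, ev_re]
    refine Filter.eventually_congr ?_
    filter_upwards [hes] with x hx
    have h1 : (x ∘ s) ∘ e = x := hx.1
    rw [h1]
  refine ⟨S.card, hS, mu, hmu, fun i => S.equivFin.symm i, fun i j hij =>
    S.equivFin.symm.injective (Subtype.ext hij), re W s, np_re hWNP s, ?_, fun b hbN => ?_⟩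
  · unfold Ij
    rw [ev_re]
    filter_upwards [hes] with x hx
    exact hx.2
  · obtain ⟨l1, hl1⟩ : ∃ l1 : List (Fin S.card ⊕ (Fin k ⊕ {j // j ∈ crd (l ⟨b, hbN⟩)})),
        l1.map (Sum.map (fun i => (S.equivFin.symm i : ℕ)) (Sum.map id Subtype.val)) =
          l ⟨b, hbN⟩ := by
      refine exists_lift fun x hx => ?_
      rcases x with a | y | j
      · have h1 : a ∈ S := Finset.mem_biUnion.2 ⟨⟨b, hbN⟩, Finset.mem_univ _, mem_cns hx⟩
        refine ⟨Sum.inl (S.equivFin ⟨a, h1⟩), ?_⟩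
        rw [Sum.map_inl, Equiv.symm_apply_apply]
      · exact ⟨Sum.inr (Sum.inl y), rfl⟩
      · exact ⟨Sum.inr (Sum.inr ⟨j, mem_crd hx⟩), rfl⟩
    have key : ∀ V' : Ultrafilter (Fin k → ℕ), typ M (prU V' (U ⟨b, hbN⟩)) (l ⟨b, hbN⟩) =
        typ M (prU V' (re W s)) ((l1.map (Sum.map id (Sum.map id (e ∘ Sigma.mk ⟨b, hbN⟩)))).map
          (Sum.map (fun i => (S.equivFin.symm i : ℕ)) id)) := by
      intro V'
      have h1 : re (re W s) (e ∘ Sigma.mk ⟨b, hbN⟩) =
          re (U ⟨b, hbN⟩) (Subtype.val : {j // j ∈ crd (l ⟨b, hbN⟩)} → J ⟨b, hbN⟩) := by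
        rw [← hW ⟨b, hbN⟩]
        conv_rhs => rw [← hWe]
        rw [re_re, re_re, re_re]
      have h2 := typ_prU_re hM V' (U ⟨b, hbN⟩)
        (Subtype.val : {j // j ∈ crd (l ⟨b, hbN⟩)} → J ⟨b, hbN⟩)
        (l1.map (Sum.map (fun i => (S.equivFin.symm i : ℕ)) id))
      have h3 := typ_prU_re hM V' (re W s) (e ∘ Sigma.mk ⟨b, hbN⟩)
        (l1.map (Sum.map (fun i => (S.equivFin.symm i : ℕ)) id))
      rw [h1, h2] at h3
      rw [List.map_map, List.map_map] at h3
      rw [List.map_map]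
      have h4 : l1.map (Sum.map id (Sum.map id
          (Subtype.val : {j // j ∈ crd (l ⟨b, hbN⟩)} → J ⟨b, hbN⟩)) ∘
          Sum.map (fun i => (S.equivFin.symm i : ℕ)) id) = l ⟨b, hbN⟩ := by
        refine Eq.trans ?_ hl1
        exact List.map_congr_left fun x _ => by rcases x with x | x <;> rfl
      rw [h4] at h3
      rw [h3]
      exact congrArg _ (List.map_congr_left fun x _ => by rcases x with x | x <;> rfl)
    refine ⟨l1.map (Sum.map id (Sum.map id (e ∘ Sigma.mk ⟨b, hbN⟩))), fun h => ?_⟩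
    exact hd ⟨b, hbN⟩ (by rw [key, key]; exact h)

end Pool.Agent.H75.FK
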