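import Pool.Agent.H75.FK.RUN

/-!
# Board hci_modules: T4D (separation gives genericity of later tuples)
-/

set_option autoImplicit false

namespace Pool.Agent.H75.FK

open Set Pool.Agent.H75.HCI Pool.Agent.H41.HI Pool.Agent.H71.HCI Pool.Agent.H16.FK

variable {C : Type} {kc ku k : ℕ} {M : List ℕ → C}

/-- The word with parameters `x` and `q` variables. -/
def wd (x : List ℕ) (q : ℕ) (w : List ℕ) : List (ℕ ⊕ Fin q) :=
  sel (x.map Sum.inl ++ (List.finRange q).map Sum.inr) w

lemma wd_map (x : List ℕ) {q : ℕ} (w : List ℕ) (y : Fin q → ℕ) :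
    (wd x q w).map (Sum.elim id y) = sel (x ++ List.ofFn y) w := by
  unfold wd
  rw [← sel_map, List.map_append, List.map_map, List.map_map, List.ofFn_eq_map]
  congr 2
  exact List.map_id _

/-- The types of the pattern are the types of the random array with other marks. -/
lemma typ_pU (hV : T_TDV) (hM : FinL M) (D : Dat kc ku k) (x w : List ℕ) {q : ℕ}
    (p : Fin q → Idx (kc + ku) k) :
    typ M (pU D p) (wd x q w) = TD M (D.mk' x) (List.ofFn p) w := by
  have h1 := typ_spec hM (pU D p) (wd x q w)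
  unfold pU at h1
  rw [ev_map] at h1
  have h2 := hV C kc ku k M (D.mk' x) hM (List.ofFn p) (box (bnd (List.ofFn p)) (bnd (List.ofFn p)))
    (prg_box _ _) (fun p hp => itp_box le_rfl le_rfl hp) st0 w
  rw [run_mk'] at h2
  obtain ⟨s, h3, h4⟩ := (h1.and h2).exists
  rw [wd_map] at h3
  rw [← h4, List.map_ofFn]
  exact h3.symm

/-- A tuple in later chunks: fix the first points. -/
lemma TD_fix (hV : T_TDV) (hM : FinL M) (D : Dat kc ku k) (w : List ℕ)
    {n : ℕ} {l p : List (Idx (kc + ku) k)} (hl : Blw n l) (hp : Abv n p) {S : ℕ}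
    (hS : bnd l ≤ S) (hS' : bnd p ≤ S) :
    ∀ᶠ s1 in (run D (box n S) st0 : Filter (Sta kc ku k)),
      TD M D (l ++ p) w = TD M (D.mk' (D.z ++ l.map s1.pt)) p w := by
  have h0 : (∀ a ∈ l ++ p, itp a ∈ box (n + S) S) := by
    intro a ha
    rcases List.mem_append.1 ha with h | h
    · have h1 := le_bnd h
      refine itp_bxs (List.mem_range.2 (by have := hl a h; omega)) fun q hq => ?_
      rw [hq] at h1
      simp only [Sum.elim_inr] at h1
      omega
    · have h1 := le_bnd h
      refine itp_bxs (List.mem_range.2 (by omega)) fun q hq => ?_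
      rw [hq] at h1
      simp only [Sum.elim_inr] at h1
      omega
  have h1 := hV C kc ku k M D hM (l ++ p) (box (n + S) S) (prg_box _ _) h0 st0 w
  rw [box_add, ev_run_append] at h1
  filter_upwards [h1] with s1 h2
  have h3 : ∀ a ∈ p, itp a ∈ bxs ((List.range S).map fun i => n + i) S := by
    intro a ha
    have h4 := le_bnd ha
    refine itp_bxs (List.mem_map.2 ⟨a.1 - n, List.mem_range.2 (by omega), ?_⟩) fun q hq => ?_
    · have := hp a ha
      omega
    · rw [hq] at h4
      simp only [Sum.elim_inr] at h4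
      omega
  have h4 := hV C kc ku k M (D.mk' (D.z ++ l.map s1.pt)) hM p _
    (prg_bxs (by
      rw [List.pairwise_map]
      exact List.pairwise_lt_range.imp fun h => by omega) S) h3 s1 w
  rw [run_mk'] at h4
  obtain ⟨s2, ⟨h5, h6⟩, h7, -⟩ := ((h2.and h4).and (run_keep D _ s1)).exists
  rw [← h5, ← h6]
  have h8 : l.map s2.pt = l.map s1.pt := by
    refine List.map_congr_left fun a ha => h7 a fun it hit => ?_
    have h9 := (mem_bxs.1 hit).1
    obtain ⟨i, -, h10⟩ := List.mem_map.1 h9
    have := hl a ha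
    change n + i = it.1 at h10
    omega
  rw [List.map_append, h8, ← List.append_assoc]
  rfl

/-- Tuples in later chunks with equivalent distributions have the same type over the first points. -/
lemma TD_later (hV : T_TDV) (hM : FinL M) (D : Dat kc ku k)
    {n q : ℕ} {l : List (Idx (kc + ku) k)} {p p' : Fin q → Idx (kc + ku) k} (hl : Blw n l)
    (hp : Abv n (List.ofFn p)) (hp' : Abv n (List.ofFn p')) (h : typ M (pU D p) = typ M (pU D p')) :
    TD M D (l ++ List.ofFn p) = TD M D (l ++ List.ofFn p') := by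
  funext w
  have h1 := TD_fix hV hM D w hl hp (S := bnd l + bnd (List.ofFn p) + bnd (List.ofFn p'))
    (by omega) (by omega)
  have h2 := TD_fix hV hM D w hl hp' (S := bnd l + bnd (List.ofFn p) + bnd (List.ofFn p'))
    (by omega) (by omega)
  obtain ⟨s, h3, h4⟩ := (h1.and h2).exists
  rw [h3, h4, ← typ_pU hV hM, ← typ_pU hV hM, h]

lemma prt_ofFn {kx k q : ℕ} (i m : ℕ) (a : Fin q → Fin k) :
    (prt i m (List.ofFn a) : List (Idx kx k)) = List.ofFn fun j => (i, .inr (m, a j)) := by
  unfold prt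
  rw [List.map_ofFn]
  rfl

lemma prt_pat {kx k : ℕ} {L : Type} {T : List (Idx kx k) → L} (hT : PatInv T) (i m i' m' : ℕ)
    (a : List (Fin k)) : T (prt i m a) = T (prt i' m' a) := by
  have h1 : (prt i m a : List (Idx kx k)) =
      (prt i' m' a).map fun p => (i, p.2.elim Sum.inl fun q => Sum.inr (m, q.2)) := by
    unfold prt
    rw [List.map_map]
    rfl
  rw [h1]
  refine hT _ {p | p ∈ (prt i' m' a : List (Idx kx k))} ⟨?_, ?_, ?_⟩ _ fun x hx => hx
  · intro p hp
    obtain ⟨y, -, rfl⟩ := List.mem_map.1 hp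
    rfl
  · intro p hp q hq
    obtain ⟨y, -, rfl⟩ := List.mem_map.1 hp
    obtain ⟨y', -, rfl⟩ := List.mem_map.1 hq
    exact ⟨fun h => absurd h (lt_irrefl _), fun h => absurd h (lt_irrefl _)⟩
  · intro p hp q hq _ u u' v v' h2 h3 h4 h5
    obtain ⟨y, -, rfl⟩ := List.mem_map.1 hp
    obtain ⟨y', -, rfl⟩ := List.mem_map.1 hq
    simp only [Sum.inr.injEq] at h2 h3
    subst h2 h3
    simp only [Sum.elim_inr, Sum.inr.injEq] at h4 h5
    subst h4 h5
    exact ⟨fun h => absurd h (lt_irrefl _), fun h => absurd h (lt_irrefl _)⟩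

/-- Tuples with the type of a row part are distributed like a row part. -/
lemma T4_main (hV : T_TDV) (hP : T_TDP) (hM : FinL M) (D : Dat kc ku k)
    (hS : Sep M D) {n : ℕ} {l p : List (Idx (kc + ku) k)} {a : List (Fin k)} (hl : Blw n l)
    (hp : Abv n p) (hpn : p.Nodup) (hpa : p.length = a.length) (ha : a.Nodup)
    (h : TD M D p = TD M D (prt 0 0 a)) : TD M D (l ++ p) = TD M D (l ++ prt n 0 a) := by
  obtain ⟨q, hq0⟩ : ∃ q, a.length = q := ⟨_, rfl⟩
  obtain ⟨g, rfl⟩ := exists_ofFn p q (hpa.trans hq0)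
  obtain ⟨f, rfl⟩ := exists_ofFn a q hq0
  have hq : q ≤ k := by
    have h1 := (List.nodup_ofFn.1 ha)
    have h2 := Fintype.card_le_of_injective _ h1
    rwa [Fintype.card_fin, Fintype.card_fin] at h2
  have hf := List.nodup_ofFn.1 ha
  have hg := List.nodup_ofFn.1 hpn
  have h1 := hS _ hq g f hg hf h
  have h2 := hS _ hq (fun j => ((n, .inr (0, f j)) : Idx (kc + ku) k)) f (fun i j hij => by
    simp only [Prod.mk.injEq, Sum.inr.injEq, true_and] at hij
    exact hf hij) hf (by
      rw [← prt_ofFn]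
      exact prt_pat (hP C kc ku k M D hM).1 _ _ _ _ _)
  rw [prt_ofFn]
  refine TD_later hV hM D hl hp ?_ (h1.trans h2.symm)
  rw [← prt_ofFn]
  intro x hx
  obtain ⟨y, -, rfl⟩ := List.mem_map.1 hx
  exact le_rfl

/-- T4D -/
theorem pf_T4D (_hD : T_DIS) (hV : T_TDV) (hP : T_TDP) (h3 : T_T3D) : T_T4D := by
  intro C kc ku k M D hM hOK hPP hS
  have hpi := (hP C kc ku k M D hM).1
  refine ⟨?_, ?_⟩
  · intro n l p i m a hl hp hpn hpa ha hak hmi h
    have h1 : TD M D p = TD M D (prt 0 0 a) := h.trans (prt_pat hpi _ _ _ _ _)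
    rw [T4_main hV hP hM D hS hl hp hpn hpa ha h1]
    refine h3 C kc ku k M D hM hOK hPP l n 0 i m a ha hak (fun y hy => ?_) hmi
    exact absurd (hl _ hy) (lt_irrefl _)
  · intro n l p hl hp hpn hpk h
    exact T4_main hV hP hM D hS hl hp hpn (by rw [hpk, List.length_finRange])
      (List.nodup_finRange k) h

end Pool.Agent.H75.FK
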