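import Pool.Agent.H16.FK.Defs

/-!
# Smallness gives isomorphisms of visible parts over the first chunks
-/

set_option autoImplicit false

namespace Pool.Agent.H75.FK

open Set Pool.Agent.H75.HCI Pool.Agent.H16.FK

variable {C L : Type} {M : List ℕ → C} {z : List ℕ} {kx k : ℕ} {T : List (Idx kx k) → L}

/-- `T` is realised in `M` over the marks `z` with blocks of all sizes. -/
def Real (M : List ℕ → C) (z : List ℕ) (T : List (Idx kx k) → L) : Prop :=
  ∀ S : ℕ → ℕ, ∃ (pt : Idx kx k → ℕ) (F : (List ℕ → C) → L), InjOn pt (V kx k S) ∧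
    (∀ p ∈ V kx k S, pt p ∉ z) ∧
    ∀ l : List (Idx kx k), (∀ p ∈ l, p ∈ V kx k S) → T l = F (ft M (z ++ l.map pt))

lemma emb_ft' {g : ℕ → ℕ} {A : Set ℕ} (hg : Emb M (id : ℕ → ℕ) M (id : ℕ → ℕ) g A)
    (l : List ℕ) (hl : ∀ x ∈ l, x ∈ A) : ft M (l.map g) = ft M l := by
  funext w
  unfold ft
  rw [sel_map]
  exact hg.lab _ fun x hx => hl x (sel_mem hx)

theorem transport2 {S : ℕ → ℕ} {pt : Idx kx k → ℕ} {F : (List ℕ → C) → L} (hT : PatInv T)
    (hinj : InjOn pt (V kx k S)) (hdis : ∀ p ∈ V kx k S, pt p ∉ z)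
    (hlab : ∀ l : List (Idx kx k), (∀ p ∈ l, p ∈ V kx k S) → T l = F (ft M (z ++ l.map pt)))
    {φ φ' : ℕ → ℕ} (hφ : StrictMono φ) (hφ' : StrictMono φ') (g : ℕ → ℕ)
    (hg : Emb M (id : ℕ → ℕ) M (id : ℕ → ℕ) g (AF z S pt (range φ)))
    (him : g '' AF z S pt (range φ) = AF z S pt (range φ')) (hz : ∀ x ∈ z, g x = x) :
    ∃ g' : Idx kx k → Idx kx k, Iso T g' (fun i => S (φ i)) (fun i => S (φ' i)) ∧
      ∀ p ∈ V kx k (fun i => S (φ i)), pt (sh φ' (g' p)) = g (pt (sh φ p)) := by
  classical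
  have hin : ∀ p ∈ V kx k (fun i => S (φ i)), pt (sh φ p) ∈ AF z S pt (range φ) :=
    fun p hp => Or.inr ⟨sh φ p, ⟨sh_mem hp, ⟨p.1, rfl⟩⟩, rfl⟩
  have hex : ∀ p ∈ V kx k (fun i => S (φ i)), ∃ q ∈ V kx k (fun i => S (φ' i)),
      pt (sh φ' q) = g (pt (sh φ p)) := by
    intro p hp
    have h1 : g (pt (sh φ p)) ∈ AF z S pt (range φ') := by
      rw [← him]
      exact ⟨_, hin p hp, rfl⟩
    rcases h1 with h1 | ⟨q, ⟨hq1, hq2⟩, hq3⟩
    · exfalso
      have h2 := hz _ h1
      have h3 := hg.inj (Or.inl h1) (hin p hp) h2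
      rw [h3] at h1
      exact hdis _ (sh_mem hp) h1
    · obtain ⟨q', hq', rfl⟩ := sh_surj (S := S) rfl hq1 hq2
      exact ⟨q', hq', hq3⟩
  choose! g' hg'1 hg'2 using hex
  refine ⟨g', ⟨?_, ?_, ?_⟩, hg'2⟩
  · intro p hp q hq hpq
    have h1 : g (pt (sh φ p)) = g (pt (sh φ q)) := by
      rw [← hg'2 p hp, ← hg'2 q hq, hpq]
    have h2 := hg.inj (hin p hp) (hin q hq) h1
    exact sh_inj hφ (hinj (sh_mem hp) (sh_mem hq) h2)
  · refine Subset.antisymm ?_ ?_
    · rintro _ ⟨p, hp, rfl⟩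
      exact hg'1 p hp
    · intro q hq
      have h1 : pt (sh φ' q) ∈ AF z S pt (range φ') :=
        Or.inr ⟨sh φ' q, ⟨sh_mem hq, ⟨q.1, rfl⟩⟩, rfl⟩
      rw [← him] at h1
      obtain ⟨x, hx, hxq⟩ := h1
      rcases hx with hx | ⟨p, ⟨hp1, hp2⟩, rfl⟩
      · exfalso
        rw [hz x hx] at hxq
        rw [hxq] at hx
        exact hdis _ (sh_mem hq) hx
      · obtain ⟨p', hp', rfl⟩ := sh_surj (S := S) rfl hp1 hp2
        refine ⟨p', hp', ?_⟩
        have h2 := hg'2 p' hp'
        rw [hxq] at h2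
        exact sh_inj hφ' (hinj (sh_mem (hg'1 p' hp')) (sh_mem hq) h2)
  · intro l hl
    have e1 : T (l.map g') = T ((l.map g').map (sh φ')) :=
      (hT (sh φ') univ (pat_sh hφ' univ) _ fun _ _ => mem_univ _).symm
    have e2 : T ((l.map g').map (sh φ')) = F (ft M (z ++ ((l.map g').map (sh φ')).map pt)) := by
      refine hlab _ fun p hp => ?_
      rw [List.map_map, List.mem_map] at hp
      obtain ⟨x, hx, rfl⟩ := hp
      exact sh_mem (hg'1 x (hl x hx))
    have e3 : z ++ ((l.map g').map (sh φ')).map pt = (z ++ (l.map (sh φ)).map pt).map g := by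
      rw [List.map_append]
      congr 1
      · symm
        conv_rhs => rw [← List.map_id z]
        exact List.map_congr_left fun x hx => hz x hx
      · rw [List.map_map, List.map_map, List.map_map, List.map_map]
        exact List.map_congr_left fun x hx => hg'2 x (hl x hx)
    have e4 : ft M ((z ++ (l.map (sh φ)).map pt).map g) = ft M (z ++ (l.map (sh φ)).map pt) := by
      refine emb_ft' hg _ fun x hx => ?_
      rcases List.mem_append.1 hx with hx | hx
      · exact Or.inl hx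
      · rw [List.map_map, List.mem_map] at hx
        obtain ⟨y, hy, rfl⟩ := hx
        exact hin y (hl y hy)
    have e5 : F (ft M (z ++ (l.map (sh φ)).map pt)) = T (l.map (sh φ)) := by
      refine (hlab _ fun p hp => ?_).symm
      rw [List.mem_map] at hp
      obtain ⟨x, hx, rfl⟩ := hp
      exact sh_mem (hl x hx)
    have e6 : T (l.map (sh φ)) = T l := hT (sh φ) univ (pat_sh hφ univ) _ fun _ _ => mem_univ _
    rw [e1, e2, e3, e4, e5, e6]

/-- Fast growing sizes above a bound. -/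
theorem exists_sf' (k N : ℕ) : ∃ S : ℕ → ℕ, SF k S ∧ ∀ i, N ≤ S i := by
  let P : ℕ → ℕ := fun n => Nat.rec 0 (fun _ p => p + (k + p + (N + 1) + k)) n
  have hP : ∀ n, P (n + 1) = P n + (k + P n + (N + 1) + k) := fun _ => rfl
  have hsum : ∀ n, ∑ j ∈ Finset.range n, (k + P j + (N + 1) + k) = P n := by
    intro n
    induction n with
    | zero => rfl
    | succ n ih => rw [Finset.sum_range_succ, ih, hP]
  refine ⟨fun n => k + P n + (N + 1), fun n => ?_, fun i => by
    change N ≤ k + P i + (N + 1)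
    omega⟩
  change k + ∑ j ∈ Finset.range n, (k + P j + (N + 1) + k) < k + P n + (N + 1)
  rw [hsum]
  omega

/-- The enumeration of the first `i0` numbers and the shifted members of a set. -/
def enl (i0 : ℕ) (β : ℕ → ℕ) (i : ℕ) : ℕ := if i < i0 then i else i0 + β (i - i0)

lemma enl_mono {i0 : ℕ} {β : ℕ → ℕ} (hβ : StrictMono β) : StrictMono (enl i0 β) := by
  intro a b hab
  unfold enl
  by_cases hb : b < i0
  · have ha : a < i0 := hab.trans hb
    rw [if_pos ha, if_pos hb]
    exact hab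
  · rw [if_neg hb]
    by_cases ha : a < i0
    · rw [if_pos ha]
      omega
    · rw [if_neg ha]
      have := hβ (show a - i0 < b - i0 by omega)
      omega

lemma enl_range {i0 : ℕ} {β : ℕ → ℕ} :
    range (enl i0 β) = {i | i < i0} ∪ (fun b => i0 + b) '' range β := by
  ext i
  constructor
  · rintro ⟨j, rfl⟩
    unfold enl
    by_cases hj : j < i0
    · rw [if_pos hj]
      exact Or.inl hj
    · rw [if_neg hj]
      exact Or.inr ⟨_, ⟨_, rfl⟩, rfl⟩
  · rintro (h | ⟨_, ⟨j, rfl⟩, rfl⟩)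
    · exact ⟨i, if_pos h⟩
    · refine ⟨i0 + j, ?_⟩
      unfold enl
      rw [if_neg (by omega)]
      congr 2
      omega

/-- The points of the first chunks. -/
lemma low_finite (i0 : ℕ) (S : ℕ → ℕ) : {p : Idx kx k | p ∈ V kx k S ∧ p.1 < i0}.Finite := by
  have h1 : {p : Idx kx k | p ∈ V kx k S ∧ p.1 < i0} ⊆
      ⋃ i ∈ Finset.range i0, (range (fun b : Fin kx => ((i, .inl b) : Idx kx k)) ∪
        range fun q : Fin (S i) × Fin k => ((i, .inr (q.1.1, q.2)) : Idx kx k)) := by
    rintro ⟨i, q⟩ ⟨h1, h2⟩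
    rw [mem_iUnion₂]
    refine ⟨i, Finset.mem_range.2 h2, ?_⟩
    rcases q with b | ⟨m, c⟩
    · exact Or.inl ⟨b, rfl⟩
    · exact Or.inr ⟨(⟨m, h1 _ rfl⟩, c), rfl⟩
  refine Finite.subset ?_ h1
  exact Set.Finite.biUnion (Finset.finite_toSet _) fun i _ =>
    (finite_range _).union (finite_range _)

/-- There are isomorphisms between visible parts with growing sizes over the first `i0` chunks;
the sizes grow fast from the beginning. -/
def Coll2 (T : List (Idx kx k) → L) : Prop := ∀ i0 N : ℕ, ∃ (s s' : ℕ → ℕ)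
  (g : Idx kx k → Idx kx k), StrictMono s ∧ StrictMono s' ∧ (∀ i, N ≤ s i) ∧ (∀ i, N ≤ s' i) ∧
    (∀ i < i0, s i = s' i) ∧ Fast kx s s' ∧
    Fast kx (fun i => s (i0 + i)) (fun i => s' (i0 + i)) ∧
    Iso T g s s' ∧ ∀ p ∈ V kx k s, p.1 < i0 → g p = p

/-- COL: smallness gives isomorphisms of visible parts over the first chunks. -/
theorem pf_COL2 (hk : 1 ≤ k) (hs : SmallE M (id : ℕ → ℕ) univ) (hT : PatInv T)
    (hR : Real M z T) : Coll2 T := by
  classical
  intro i0 N
  obtain ⟨S, hS, hSN⟩ := exists_sf' kx (N + 1)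
  obtain ⟨pt, F, hinj, hdis, hlab⟩ := hR S
  set z' : List ℕ := z ++ ((low_finite (kx := kx) (k := k) i0 S).toFinset.toList.map pt) with hz'
  have hmz : ∀ x, x ∈ z' ↔ x ∈ z ∨ ∃ p, (p ∈ V kx k S ∧ p.1 < i0) ∧ pt p = x := by
    intro x
    simp only [hz', List.mem_append, List.mem_map, Finset.mem_toList, Finite.mem_toFinset,
      mem_ofPred_eq]
  set B : (ℕ → Bool) → Set ℕ := fun c => {i | i < i0} ∪ (fun b => i0 + b) '' br c with hB
  have hBi : ∀ c, (B c).Infinite := fun c =>
    ((br_infinite c).image (fun a _ b _ h => by simpa using h)).mono subset_union_right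
  have g1 : ∀ x, MeasurableSet {c : ℕ → Bool | x ∈ AF z S pt (B c)} := by
    intro x
    by_cases hx : x ∈ z
    · have : {c : ℕ → Bool | x ∈ AF z S pt (B c)} = univ :=
        eq_univ_of_forall fun c => Or.inl hx
      rw [this]
      exact MeasurableSet.univ
    · have h1 : {c : ℕ → Bool | x ∈ AF z S pt (B c)} =
          ⋃ p ∈ {p : Idx kx k | p ∈ V kx k S ∧ pt p = x},
            ({c : ℕ → Bool | p.1 < i0} ∪ {c : ℕ → Bool | i0 ≤ p.1 ∧ p.1 - i0 ∈ br c}) := by
        ext c
        simp only [AF, hB, mem_union, mem_image, mem_ofPred_eq, mem_iUnion, exists_prop]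
        constructor
        · rintro (h | ⟨p, ⟨h1, h2⟩, h3⟩)
          · exact absurd h hx
          · refine ⟨p, ⟨h1, h3⟩, ?_⟩
            rcases h2 with h2 | ⟨b, hb, h2⟩
            · exact Or.inl h2
            · refine Or.inr ⟨by omega, ?_⟩
              have : p.1 - i0 = b := by omega
              rw [this]
              exact hb
        · rintro ⟨p, ⟨h1, h3⟩, h2⟩
          refine Or.inr ⟨p, ⟨h1, ?_⟩, h3⟩
          rcases h2 with h2 | ⟨h2, h4⟩
          · exact Or.inl h2
          · exact Or.inr ⟨p.1 - i0, h4, by omega⟩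
      rw [h1]
      refine MeasurableSet.biUnion (to_countable _) fun p _ => ?_
      refine MeasurableSet.union (MeasurableSet.const _) ?_
      by_cases hp : i0 ≤ p.1
      · have : {c : ℕ → Bool | i0 ≤ p.1 ∧ p.1 - i0 ∈ br c} = {c | p.1 - i0 ∈ br c} := by
          ext c
          simp [hp]
        rw [this]
        exact br_measurable _
      · have : {c : ℕ → Bool | i0 ≤ p.1 ∧ p.1 - i0 ∈ br c} = ∅ := by
          ext c
          simp [hp]
        rw [this]
        exact MeasurableSet.empty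
  have g2 : ∀ c, (AF z S pt (B c)).Infinite := by
    intro c
    have h1 : (pt '' {p | p ∈ V kx k S ∧ p.1 ∈ B c}).Infinite := by
      refine Infinite.image (hinj.mono fun p hp => hp.1) ?_
      have h2 : ((fun n : ℕ => ((n, .inr (0, ⟨0, hk⟩)) : Idx kx k)) '' B c).Infinite := by
        refine Infinite.image ?_ (hBi c)
        intro a _ b _ h
        exact (Prod.ext_iff.1 h).1
      refine h2.mono ?_
      rintro _ ⟨n, hn, rfl⟩
      refine ⟨?_, hn⟩
      intro q hq
      have hq' : (0, ⟨0, hk⟩) = q := Sum.inr.inj hq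
      rw [← hq']
      have := hSN n
      change 0 < S n
      omega
    exact h1.mono subset_union_right
  have g4 : ∀ c, ∀ x ∈ AF z S pt (B c), ∀ y ∈ (univ : Set ℕ), id y = id x →
      y ∈ AF z S pt (B c) := by
    intro c x hx y _ hxy
    have hxy' : y = x := hxy
    rw [hxy']
    exact hx
  have g5 : ∀ c, ∀ x ∈ z', x ∈ AF z S pt (B c) := by
    intro c x hx
    rcases (hmz x).1 hx with h | ⟨p, ⟨h1, h2⟩, rfl⟩
    · exact Or.inl h
    · exact Or.inr ⟨p, ⟨h1, Or.inl h2⟩, rfl⟩
  obtain ⟨c, c', hcc, g, hg, him, hgz⟩ := hs (fun c => AF z S pt (B c)) z' g1 g2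
    (fun c => subset_univ _) g4 g5
  obtain ⟨β, hβ, hβr⟩ := exists_enum (br c) (br_infinite c)
  obtain ⟨β', hβ', hβr'⟩ := exists_enum (br c') (br_infinite c')
  have hr : range (enl i0 β) = B c := by rw [enl_range, hβr]
  have hr' : range (enl i0 β') = B c' := by rw [enl_range, hβr']
  change Emb M id M id g (AF z S pt (B c)) at hg
  change g '' AF z S pt (B c) = AF z S pt (B c') at him
  rw [← hr] at hg
  rw [← hr, ← hr'] at him
  obtain ⟨g', hI, hgp⟩ := transport2 hT hinj hdis hlab (enl_mono hβ) (enl_mono hβ') g hg him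
    fun x hx => hgz x ((hmz x).2 (Or.inl hx))
  refine ⟨fun i => S (enl i0 β i), fun i => S (enl i0 β' i), g',
    (sf_mono hS).comp (enl_mono hβ), (sf_mono hS).comp (enl_mono hβ'),
    fun i => (Nat.le_succ N).trans (hSN _), fun i => (Nat.le_succ N).trans (hSN _), ?_, ?_, ?_, hI,
    ?_⟩
  · intro i hi
    simp only [enl, if_pos hi]
  · refine fast_of hS (enl_mono hβ) (enl_mono hβ') ?_
    rw [enl_range, enl_range, hβr, hβr']
    refine ((finite_Iio i0).union ((br_inter hcc).image fun b => i0 + b)).subset ?_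
    rintro x ⟨h1, h2⟩
    by_cases hx : x < i0
    · exact Or.inl hx
    · rcases h1 with h1 | ⟨b, hb, rfl⟩
      · exact absurd h1 hx
      · rcases h2 with h2 | ⟨b', hb', h2⟩
        · exact absurd h2 hx
        · have h3 : b' = b := by
            have h4 : i0 + b' = i0 + b := h2
            omega
          rw [h3] at hb'
          exact Or.inr ⟨b, ⟨hb, hb'⟩, rfl⟩
  · have h0 : ∀ (γ : ℕ → ℕ) i, enl i0 γ (i0 + i) = i0 + γ i := by
      intro γ i
      unfold enl
      rw [if_neg (by omega)]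
      congr 2
      omega
    simp only [h0]
    have hS' : SF kx fun i => S (i0 + i) := by
      intro n
      have h1 := hS (i0 + n)
      rw [Finset.sum_range_add] at h1
      change kx + ∑ j ∈ Finset.range n, (S (i0 + j) + kx) < S (i0 + n)
      omega
    refine fast_of hS' hβ hβ' ?_
    rw [hβr, hβr']
    exact br_inter hcc
  · intro p hp hlow
    have e0 : ∀ γ : ℕ → ℕ, sh (enl i0 γ) p = p := by
      intro γ
      refine Prod.ext ?_ rfl
      change enl i0 γ p.1 = p.1
      unfold enl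
      rw [if_pos hlow]
    have h1 := hgp p hp
    have hpV : p ∈ V kx k S := by
      have := sh_mem (S := S) hp
      rwa [e0] at this
    have h2 : g (pt (sh (enl i0 β) p)) = pt p := by
      rw [e0]
      exact hgz _ ((hmz _).2 (Or.inr ⟨p, ⟨hpV, hlow⟩, rfl⟩))
    rw [h2] at h1
    have h3 : g' p ∈ V kx k fun i => S (enl i0 β' i) := by
      rw [← hI.img]
      exact ⟨p, hp, rfl⟩
    have h4 := hinj (sh_mem h3) hpV h1
    have h5 : sh (enl i0 β') (g' p) = sh (enl i0 β') p := by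
      rw [h4, e0]
    exact sh_inj (enl_mono hβ') h5

theorem pf_COL (hk : 1 ≤ k) (hs : SmallE M (id : ℕ → ℕ) univ) (hT : PatInv T)
    (hR : Real M z T) : Coll T := by
  intro i0 N
  obtain ⟨s, s', g, h1, h2, h3, h4, h5, -, h6, h7, h8⟩ := pf_COL2 hk hs hT hR i0 N
  exact ⟨s, s', g, h1, h2, h3, h4, h5, h6, h7, h8⟩

end Pool.Agent.H75.FK
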