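import Pool.Agent.H16.FK.Defs

/-!
# Compression: pattern preserving maps of finite sets of indices into low chunks and low rows
-/

set_option autoImplicit false

namespace Pool.Agent.H75.FK

open Set Pool.Agent.H75.HCI Pool.Agent.H16.FK

variable {kx k : ℕ} {L : Type}

/-- The chunks of a finite set. -/
def chs (F : Finset (Idx kx k)) : Finset ℕ := F.image Prod.fst

/-- The row number of a point. -/
def rn (p : Idx kx k) : ℕ := p.2.elim (fun _ => 0) fun q => q.1

/-- The rows of the chunk `c` in a finite set. -/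
def rwo (F : Finset (Idx kx k)) (c : ℕ) : Finset ℕ := (F.filter fun p => p.1 = c).image rn

/-- The new chunk: the chunk `i` goes to `i'`. -/
def chi (F : Finset (Idx kx k)) (i i' c : ℕ) : ℕ :=
  if c < i then ((chs F).filter (· < c)).card else if c = i then i' else i' + c

/-- The new row. -/
def rho (F : Finset (Idx kx k)) (c m : ℕ) : ℕ := ((rwo F c).filter (· < m)).card

/-- The compression of `F`, the chunk `i` goes to `i'`. -/
def cmpr (F : Finset (Idx kx k)) (i i' : ℕ) (p : Idx kx k) : Idx kx k :=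
  (chi F i i' p.1, p.2.elim .inl fun q => .inr (rho F p.1 q.1, q.2))

lemma mem_chs {F : Finset (Idx kx k)} {p : Idx kx k} (h : p ∈ F) : p.1 ∈ chs F :=
  Finset.mem_image_of_mem _ h

lemma mem_rwo {F : Finset (Idx kx k)} {c : ℕ} {q : ℕ × Fin k} (h : (c, .inr q) ∈ F) :
    q.1 ∈ rwo F c :=
  Finset.mem_image.2 ⟨_, Finset.mem_filter.2 ⟨h, rfl⟩, rfl⟩

lemma rank_lt (A : Finset ℕ) {a b : ℕ} (ha : a ∈ A) (hab : a < b) :
    (A.filter (· < a)).card < (A.filter (· < b)).card := by
  refine Finset.card_lt_card ⟨fun x hx => ?_, fun h => ?_⟩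
  · rw [Finset.mem_filter] at hx ⊢
    exact ⟨hx.1, hx.2.trans hab⟩
  · have h1 := h (Finset.mem_filter.2 ⟨ha, hab⟩)
    exact lt_irrefl a (Finset.mem_filter.1 h1).2

lemma rank_iff (A : Finset ℕ) {a b : ℕ} (ha : a ∈ A) (hb : b ∈ A) :
    (A.filter (· < a)).card < (A.filter (· < b)).card ↔ a < b := by
  refine ⟨fun h => ?_, rank_lt A ha⟩
  by_contra hcon
  rcases (not_lt.1 hcon).eq_or_lt with h1 | h1
  · rw [h1] at h
    exact lt_irrefl _ h
  · exact lt_asymm h (rank_lt A hb h1)

lemma chi_lt {F : Finset (Idx kx k)} {i i' : ℕ} (hi : ((chs F).filter (· < i)).card ≤ i')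
    {c c' : ℕ} (hc : c ∈ chs F) (h : c < c') : chi F i i' c < chi F i i' c' := by
  unfold chi
  by_cases h1 : c < i
  · rw [if_pos h1]
    have h2 : ((chs F).filter (· < c)).card < ((chs F).filter (· < i)).card := rank_lt _ hc h1
    by_cases h3 : c' < i
    · rw [if_pos h3]
      exact rank_lt _ hc h
    · rw [if_neg h3]
      split_ifs <;> omega
  · rw [if_neg h1, if_neg (show ¬ c' < i by omega), if_neg (show ¬ c' = i by omega)]
    split_ifs with h4
    · omega
    · omega

lemma chi_iff {F : Finset (Idx kx k)} {i i' : ℕ} (hi : ((chs F).filter (· < i)).card ≤ i')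
    {c c' : ℕ} (hc : c ∈ chs F) (hc' : c' ∈ chs F) :
    chi F i i' c < chi F i i' c' ↔ c < c' := by
  refine ⟨fun h => ?_, chi_lt hi hc⟩
  by_contra hcon
  rcases (not_lt.1 hcon).eq_or_lt with h1 | h1
  · rw [h1] at h
    exact lt_irrefl _ h
  · exact lt_asymm h (chi_lt hi hc' h1)

/-- The compression preserves the pattern of `F`. -/
theorem patOn_cmpr {F : Finset (Idx kx k)} {i i' : ℕ}
    (hi : ((chs F).filter (· < i)).card ≤ i') : PatOn (cmpr F i i') (F : Set (Idx kx k)) := by
  refine ⟨?_, ?_, ?_⟩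
  · rintro ⟨c, b | q⟩ _ <;> rfl
  · intro p hp q hq
    exact chi_iff hi (mem_chs hp) (mem_chs hq)
  · rintro ⟨c, b | u0⟩ hp ⟨c', b' | v0⟩ hq hpq u u' v v' e1 e2 e3 e4
    · exact absurd e1 (by simp)
    · exact absurd e1 (by simp)
    · exact absurd e2 (by simp)
    · obtain rfl : u0 = u := Sum.inr.inj e1
      obtain rfl : v0 = v := Sum.inr.inj e2
      have e3' : (rho F c u0.1, u0.2) = u' := Sum.inr.inj e3
      have e4' : (rho F c' v0.1, v0.2) = v' := Sum.inr.inj e4
      have hcc : c = c' := hpq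
      subst hcc
      rw [← e3', ← e4']
      exact rank_iff _ (mem_rwo hp) (mem_rwo hq)

lemma chs_card (F : Finset (Idx kx k)) (i : ℕ) : ((chs F).filter (· < i)).card ≤ F.card :=
  (Finset.card_le_card (Finset.filter_subset _ _)).trans Finset.card_image_le

/-- The image of the compression is in low rows. -/
lemma cmpr_mem {F : Finset (Idx kx k)} {i i' : ℕ} {s : ℕ → ℕ} (hs : ∀ j, F.card ≤ s j)
    {p : Idx kx k} (hp : p ∈ F) : cmpr F i i' p ∈ V kx k s := by
  rintro u hu
  obtain ⟨c, b | q⟩ := p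
  · exact absurd hu (by simp [cmpr])
  · have h1 : (rho F c q.1, q.2) = u := Sum.inr.inj hu
    rw [← h1]
    change rho F c q.1 < s (chi F i i' c)
    refine lt_of_lt_of_le ?_ (hs _)
    have h2 : ((rwo F c).filter (· < q.1)).card < (rwo F c).card := by
      refine Finset.card_lt_card ⟨Finset.filter_subset _ _, fun h => ?_⟩
      exact lt_irrefl _ (Finset.mem_filter.1 (h (mem_rwo hp))).2
    exact h2.trans_le (Finset.card_image_le.trans (Finset.card_le_card (Finset.filter_subset _ _)))

lemma cmpr_hub (F : Finset (Idx kx k)) (i i' : ℕ) (b : Fin kx) :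
    cmpr F i i' (i, .inl b) = (i', .inl b) := by
  unfold cmpr chi
  simp

/-- A type is preserved by the compression. -/
lemma cmpr_lab {T : List (Idx kx k) → L} (hT : PatInv T) {F : Finset (Idx kx k)} {i i' : ℕ}
    (hi : ((chs F).filter (· < i)).card ≤ i') {l : List (Idx kx k)} (hl : ∀ p ∈ l, p ∈ F) :
    T (l.map (cmpr F i i')) = T l := hT _ _ (patOn_cmpr hi) l hl

/-! ## Compression of the rows only -/

/-- The rows are compressed, chunks and hub points are fixed. -/
def rcm (F : Finset (Idx kx k)) (p : Idx kx k) : Idx kx k :=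
  (p.1, p.2.elim .inl fun q => .inr (rho F p.1 q.1, q.2))

theorem patOn_rcm (F : Finset (Idx kx k)) : PatOn (rcm F) (F : Set (Idx kx k)) := by
  refine ⟨?_, fun p _ q _ => Iff.rfl, ?_⟩
  · rintro ⟨c, b | q⟩ _ <;> rfl
  · rintro ⟨c, b | u0⟩ hp ⟨c', b' | v0⟩ hq hpq u u' v v' e1 e2 e3 e4
    · exact absurd e1 (by simp)
    · exact absurd e1 (by simp)
    · exact absurd e2 (by simp)
    · obtain rfl : u0 = u := Sum.inr.inj e1
      obtain rfl : v0 = v := Sum.inr.inj e2
      have e3' : (rho F c u0.1, u0.2) = u' := Sum.inr.inj e3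
      have e4' : (rho F c' v0.1, v0.2) = v' := Sum.inr.inj e4
      have hcc : c = c' := hpq
      subst hcc
      rw [← e3', ← e4']
      exact rank_iff _ (mem_rwo hp) (mem_rwo hq)

lemma rcm_mem {F : Finset (Idx kx k)} {s : ℕ → ℕ} (hs : ∀ j, F.card ≤ s j)
    {p : Idx kx k} (hp : p ∈ F) : rcm F p ∈ V kx k s := by
  rintro u hu
  obtain ⟨c, b | q⟩ := p
  · exact absurd hu (by simp [rcm])
  · have h1 : (rho F c q.1, q.2) = u := Sum.inr.inj hu
    rw [← h1]
    change rho F c q.1 < s c
    refine lt_of_lt_of_le ?_ (hs _)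
    have h2 : ((rwo F c).filter (· < q.1)).card < (rwo F c).card := by
      refine Finset.card_lt_card ⟨Finset.filter_subset _ _, fun h => ?_⟩
      exact lt_irrefl _ (Finset.mem_filter.1 (h (mem_rwo hp))).2
    exact h2.trans_le (Finset.card_image_le.trans (Finset.card_le_card (Finset.filter_subset _ _)))

lemma rcm_hub (F : Finset (Idx kx k)) (i : ℕ) (b : Fin kx) :
    rcm F (i, .inl b) = (i, .inl b) := rfl

end Pool.Agent.H75.FK
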