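import Pool.Agent.H16.FK.TargetsA
import Pool.Agent.H75.HCI.ARR

/-!
# Board hci_modules: RA1, members of standard families are rows or consist of hub points
-/

set_option autoImplicit false

namespace Pool.Agent.H75.FK.R1

open Set Pool.Agent.H75.HCI Pool.Agent.H16.FK

variable {kx k : ℕ} {L : Type} {T : List (Idx kx k) → L} {b0 : List (Fin kx)}

/-- Selections of pairs. -/
lemma exists_sel {α : Type} (z y : List α) (hy : ∀ p ∈ y, p ∈ z) : ∃ W : List ℕ, sel z W = y := by
  induction y with
  | nil => exact ⟨[], rfl⟩
  | cons a y ih =>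
    obtain ⟨W, hW⟩ := ih fun p hp => hy p (List.mem_cons_of_mem _ hp)
    obtain ⟨i, hi, hia⟩ := List.getElem_of_mem (hy a (List.mem_cons_self ..))
    refine ⟨i :: W, ?_⟩
    unfold sel at hW ⊢
    rw [List.filterMap_cons, List.getElem?_eq_getElem hi, hia]
    change a :: _ = _
    rw [hW]

lemma ft_zip (hft : FTx T) (z y : List (Idx kx k × Idx kx k))
    (h : T (z.map Prod.fst) = T (z.map Prod.snd)) (hy : ∀ p ∈ y, p ∈ z) :
    T (y.map Prod.fst) = T (y.map Prod.snd) := by
  obtain ⟨W, hW⟩ := exists_sel z y hy
  have h1 := hft (z.map Prod.fst) (z.map Prod.snd) W (by simp) h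
  rw [sel_map, sel_map, hW] at h1
  exact h1

/-- The point is in the row. -/
def InR (i m : ℕ) (p : Idx kx k) : Prop := ∃ y, p = (i, .inr (m, y))

lemma miss_iff {i m : ℕ} {l : List (Idx kx k)} : Miss i m l ↔ ∀ p ∈ l, ¬ InR i m p := by
  constructor
  · rintro h p hp ⟨y, rfl⟩
    exact h y hp
  · intro h y hy
    exact h _ hy ⟨y, rfl⟩

lemma exists_prt {i m : ℕ} (l : List (Idx kx k)) (h : ∀ p ∈ l, InR i m p) :
    ∃ a, l = prt i m a := by
  induction l with
  | nil => exact ⟨[], rfl⟩
  | cons p l ih =>
    obtain ⟨a, ha⟩ := ih fun q hq => h q (List.mem_cons_of_mem _ hq)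
    obtain ⟨y, hy⟩ := h p (List.mem_cons_self ..)
    exact ⟨y :: a, by rw [ha, hy]; rfl⟩

lemma prt_len (i m : ℕ) (a : List (Fin k)) : (prt i m a : List (Idx kx k)).length = a.length :=
  List.length_map ..

lemma prt_inR {i m : ℕ} {a : List (Fin k)} {p : Idx kx k} (h : p ∈ (prt i m a)) :
    InR i m p := by
  obtain ⟨y, -, rfl⟩ := List.mem_map.1 h
  exact ⟨y, rfl⟩

lemma prt_mem {i m : ℕ} {a : List (Fin k)} {y : Fin k} :
    ((i, .inr (m, y)) : Idx kx k) ∈ prt i m a ↔ y ∈ a := by
  constructor
  · intro h
    obtain ⟨y', hy', e⟩ := List.mem_map.1 h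
    have h1 := Sum.inr.inj (Prod.ext_iff.1 e).2
    have h2 : y' = y := (Prod.ext_iff.1 h1).2
    rwa [h2] at hy'
  · intro h
    exact List.mem_map_of_mem h

lemma nodup_len {a : List (Fin k)} (h : a.Nodup) : a.length ≤ k := by
  have := h.length_le_card
  rwa [Fintype.card_fin] at this

lemma nodup_lt {a : List (Fin k)} (h : a.Nodup) {y : Fin k} (hy : y ∉ a) : a.length < k := by
  have := nodup_len (List.nodup_cons.2 ⟨hy, h⟩)
  rwa [List.length_cons] at this

lemma full_of_len {a : List (Fin k)} (h : a.Nodup) (hl : a.length = k) (y : Fin k) : y ∈ a := by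
  by_contra hy
  have := nodup_lt h hy
  omega

/-- Some member of a family of more than `k` disjoint sets misses the row. -/
lemma count_le {P : Idx kx k → Prop} [DecidablePred P] (Ds : List (List (Idx kx k)))
    (h : ∀ D ∈ Ds, ∃ p ∈ D, P p) : Ds.length ≤ (Ds.flatten.filter fun p => decide (P p)).length := by
  induction Ds with
  | nil => simp
  | cons D Ds ih =>
    rw [List.flatten_cons, List.filter_append, List.length_append, List.length_cons]
    have h1 := ih fun E hE => h E (List.mem_cons_of_mem _ hE)
    obtain ⟨p, hp, hP⟩ := h D (List.mem_cons_self ..)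
    have h2 : 0 < (D.filter fun p => decide (P p)).length :=
      List.length_pos_of_mem (List.mem_filter.2 ⟨hp, by simpa using hP⟩)
    omega

/-- The correspondence of a standard family. -/
lemma zip_flat {α β : Type} (Ds : List (List α)) (Es : List (List β))
    (hlen : Ds.length = Es.length) (h : ∀ q ∈ Ds.zip Es, q.1.length = q.2.length) :
    (((Ds.zip Es).map fun q => q.1.zip q.2).flatten).map Prod.fst = Ds.flatten ∧
      (((Ds.zip Es).map fun q => q.1.zip q.2).flatten).map Prod.snd = Es.flatten := by
  induction Ds generalizing Es with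
  | nil =>
    cases Es with
    | nil => exact ⟨rfl, rfl⟩
    | cons E Es => simp at hlen
  | cons D Ds ih =>
    cases Es with
    | nil => simp at hlen
    | cons E Es =>
      have h1 := ih Es (by simpa using hlen) fun q hq => h q (by
        rw [List.zip_cons_cons]
        exact List.mem_cons_of_mem _ hq)
      have h2 : D.length = E.length := h (D, E) (by
        rw [List.zip_cons_cons]
        exact List.mem_cons_self ..)
      simp only [List.zip_cons_cons, List.map_cons, List.flatten_cons, List.map_append]
      rw [h1.1, h1.2, List.map_fst_zip (le_of_eq h2), List.map_snd_zip (le_of_eq h2.symm)]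
      exact ⟨rfl, rfl⟩

lemma row_shift (hT : PatInv T) (b : List (Fin kx)) (j : ℕ) :
    T (hub 0 b ++ row 0 j) = T (hub 0 b ++ row 0 0) := by
  have h1 : PatOn (fun p : Idx kx k => (p.1, p.2.elim .inl fun q => .inr (0, q.2)))
      {p | p ∈ hub 0 b ++ row 0 j} := by
    refine ⟨?_, fun p _ q _ => Iff.rfl, ?_⟩
    · rintro ⟨c, b | q⟩ _ <;> rfl
    · rintro ⟨c, b | u0⟩ hp ⟨c', b' | v0⟩ hq hpq u u' v v' e1 e2 e3 e4
      · exact absurd e1 (by simp)
      · exact absurd e1 (by simp)
      · exact absurd e2 (by simp)
      · have g : ∀ {c : ℕ} {u0 : ℕ × Fin k}, ((c, .inr u0) : Idx kx k) ∈ hub 0 b ++ row 0 j →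
            u0.1 = j := by
          intro c u0 h
          rcases List.mem_append.1 h with h | h
          · obtain ⟨x, -, hx⟩ := List.mem_map.1 h
            exact absurd (Prod.ext_iff.1 hx).2 (by simp)
          · obtain ⟨x, -, hx⟩ := List.mem_map.1 h
            have h2 := Sum.inr.inj (Prod.ext_iff.1 hx).2
            rw [← h2]
        have e1' : u0.1 = j := g hp
        have e2' : v0.1 = j := g hq
        obtain rfl : u0 = u := Sum.inr.inj e1
        obtain rfl : v0 = v := Sum.inr.inj e2
        have e3' : (0, u0.2) = u' := Sum.inr.inj e3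
        have e4' : (0, v0.2) = v' := Sum.inr.inj e4
        rw [← e3', ← e4', e1', e2']
        simp
  have h2 := hT _ _ h1 (hub 0 b ++ row 0 j) fun p hp => hp
  rw [← h2, List.map_append]
  congr 1
  congr 1
  · unfold hub
    rw [List.map_map]
    rfl
  · unfold row prt
    rw [List.map_map]
    rfl

lemma dbl {α : Type} (l v v' : List α) (h : v.length = v'.length) :
    (l.map (fun q => (q, q)) ++ v.zip v').map Prod.fst = l ++ v ∧
      (l.map (fun q => (q, q)) ++ v.zip v').map Prod.snd = l ++ v' := by
  have e1 : (l.map (fun q => (q, q))).map Prod.fst = l := by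
    rw [List.map_map]
    exact List.map_id l
  have e2 : (l.map (fun q => (q, q))).map Prod.snd = l := by
    rw [List.map_map]
    exact List.map_id l
  rw [List.map_append, List.map_append, e1, e2, List.map_fst_zip (le_of_eq h),
    List.map_snd_zip (le_of_eq h.symm)]
  exact ⟨rfl, rfl⟩

/-- RA1 -/
theorem pf_RA1 (hC : T_COM) (hL : T_LKI) : T_RA1 := by
  classical
  intro kx k L T b0 hA hk hW w Ds hS D hD i m hm
  have hT := hA.pat
  have hft := hA.ft
  -- the correspondence
  set Es : List (List (Idx kx k)) := (List.range (k + 1)).map (row 0) with hEs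
  have hEl : Ds.length = Es.length := by
    rw [hS.num, hEs, List.length_map, List.length_range]
  have hrow : ∀ E ∈ Es, E.length = k := by
    intro E hE
    obtain ⟨j, -, rfl⟩ := List.mem_map.1 hE
    unfold row
    rw [prt_len, List.length_finRange]
  have hql : ∀ q ∈ Ds.zip Es, q.1.length = q.2.length := by
    intro q hq
    have := List.of_mem_zip hq
    rw [hS.lenD _ this.1, hrow _ this.2]
  obtain ⟨z1, z2⟩ := zip_flat Ds Es hEl hql
  set Z : List (Idx kx k × Idx kx k) := w.zip (hub 0 b0) ++
    ((Ds.zip Es).map fun q => q.1.zip q.2).flatten with hZ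
  have hwl : w.length = (hub 0 b0 : List (Idx kx k)).length := by
    unfold hub
    rw [List.length_map, hS.len]
  have hZ1 : Z.map Prod.fst = w ++ Ds.flatten := by
    rw [hZ, List.map_append, z1, List.map_fst_zip (le_of_eq hwl)]
  have hZ2 : Z.map Prod.snd = hub 0 b0 ++ Es.flatten := by
    rw [hZ, List.map_append, z2, List.map_snd_zip (le_of_eq hwl.symm)]
  have hTZ : T (Z.map Prod.fst) = T (Z.map Prod.snd) := by
    rw [hZ1, hZ2]
    exact hS.lab
  -- types of parts
  have key : ∀ D' ∈ Ds, ∀ y0 : List (Idx kx k × Fin kx), (∀ p ∈ y0, p ∈ w.zip b0) →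
      T (y0.map Prod.fst ++ D') = T (hub 0 (y0.map Prod.snd) ++ row 0 0) := by
    intro D' hD' y0 hy0
    obtain ⟨n, hn, hnD⟩ := List.getElem_of_mem hD'
    have hn' : n < Es.length := hEl ▸ hn
    have hEn : Es[n] = row 0 n := by
      simp only [hEs, List.getElem_map, List.getElem_range]
    have hmem : (D', row 0 n) ∈ Ds.zip Es := by
      have h1 : n < (Ds.zip Es).length := by
        rw [List.length_zip, hEl, Nat.min_self]
        exact hn'
      have h2 : (Ds.zip Es)[n] = (D', row 0 n) := by
        rw [List.getElem_zip, hnD, hEn]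
      rw [← h2]
      exact List.getElem_mem h1
    have hlen : D'.length = (row 0 n : List (Idx kx k)).length := hql _ hmem
    have h3 := ft_zip hft Z (y0.map (fun p => (p.1, ((0, .inl p.2) : Idx kx k))) ++
      D'.zip (row 0 n)) hTZ (by
        intro p hp
        rcases List.mem_append.1 hp with hp | hp
        · obtain ⟨q, hq, rfl⟩ := List.mem_map.1 hp
          refine List.mem_append.2 (Or.inl ?_)
          unfold hub
          rw [List.zip_map_right]
          exact List.mem_map.2 ⟨q, hy0 q hq, rfl⟩
        · refine List.mem_append.2 (Or.inr ?_)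
          exact List.mem_flatten.2 ⟨_, List.mem_map_of_mem hmem, hp⟩)
    rw [List.map_append, List.map_append, List.map_fst_zip (le_of_eq hlen),
      List.map_snd_zip (le_of_eq hlen.symm), List.map_map, List.map_map] at h3
    have h4 : y0.map (Prod.snd ∘ fun p => (p.1, ((0, .inl p.2) : Idx kx k))) =
        hub 0 (y0.map Prod.snd) := by
      unfold hub
      rw [List.map_map]
      rfl
    rw [h4, row_shift hT] at h3
    exact h3
  have hw0 : (w.zip b0).map Prod.fst = w := List.map_fst_zip (le_of_eq hS.len)
  have hb0 : (w.zip b0).map Prod.snd = b0 := List.map_snd_zip (le_of_eq hS.len.symm)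
  have hLk : ∀ D' ∈ Ds, Lk T w D' := by
    intro D' hD'
    have h1 := key D' hD' (w.zip b0) fun p hp => hp
    rw [hw0, hb0] at h1
    refine (hL kx k L T hA).1 (hub 0 b0) w (row 0 0) D' hwl.symm ?_ h1.symm hW.2.1
    rw [hS.lenD D' hD']
    unfold row
    rw [prt_len, List.length_finRange]
  obtain ⟨ndw, ndD, hdis⟩ := List.nodup_append.1 hS.nd
  have ndDs := List.nodup_flatten.1 ndD
  have hnL : ∀ D' ∈ Ds, ∀ P : Idx kx k → Prop, (∃ p ∈ w, ¬ P p) →
      ¬ Lk T (w.filter fun p => decide (P p)) D' := by
    rintro D' hD' P ⟨p, hp, hnP⟩ hLk'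
    set y0 := (w.zip b0).filter fun q => decide (P q.1) with hy0
    have h1 := key D' hD' y0 fun q hq => (List.mem_filter.1 hq).1
    have h2 : y0.map Prod.fst = w.filter fun p => decide (P p) := by
      conv_rhs => rw [← hw0]
      rw [List.filter_map, hy0]
      rfl
    have hsub : (y0.map Prod.snd).Sublist b0 := by
      have h3 : (y0.map Prod.snd).Sublist ((w.zip b0).map Prod.snd) :=
        (List.filter_sublist ..).map _
      rwa [hb0] at h3
    have hlt : (y0.map Prod.snd).length < b0.length := by
      have h3 : (w.filter fun p => decide (P p)).length < w.length := by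
        rw [List.length_filter_lt_length_iff_exists]
        exact ⟨p, hp, by simpa using hnP⟩
      rw [List.length_map, ← List.length_map (f := Prod.fst), h2, ← hS.len]
      exact h3
    refine hW.2.2 _ (hsub.nodup hW.1) hsub.subset hlt ?_
    rw [h2] at h1
    refine (hL kx k L T hA).1 _ _ _ _ ?_ ?_ h1 hLk'
    · unfold hub
      rw [List.length_map, List.length_map, ← h2, List.length_map]
    · rw [hS.lenD D' hD']
      unfold row
      rw [prt_len, List.length_finRange]
  -- step 1
  have step1 : (∃ p ∈ w, InR i m p) → ∀ y, ((i, .inr (m, y)) : Idx kx k) ∈ w := by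
    rintro ⟨p, hp, hpR⟩ y
    by_contra hy
    obtain ⟨a, ha⟩ := exists_prt (i := i) (m := m) (w.filter fun p => decide (InR i m p))
      fun p hp => by simpa using (List.mem_filter.1 hp).2
    have hand : a.Nodup := by
      have h1 : (w.filter fun p => decide (InR i m p)).Nodup := ndw.filter _
      rw [ha] at h1
      exact List.Nodup.of_map _ h1
    have hay : y ∉ a := by
      intro h
      have h1 : ((i, .inr (m, y)) : Idx kx k) ∈ prt i m a := prt_mem.2 h
      rw [← ha] at h1
      exact hy (List.mem_filter.1 h1).1
    have hak : a.length < k := nodup_lt hand hay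
    -- a member which misses the row
    have hex : ∃ D' ∈ Ds, ∀ p ∈ D', ¬ InR i m p := by
      by_contra hcon
      push Not at hcon
      have h1 := count_le (P := InR i m) Ds hcon
      rw [hS.num] at h1
      obtain ⟨c, hc⟩ := exists_prt (i := i) (m := m)
        (Ds.flatten.filter fun p => decide (InR i m p))
        fun p hp => by simpa using (List.mem_filter.1 hp).2
      have h2 : c.Nodup := by
        have h3 : (Ds.flatten.filter fun p => decide (InR i m p)).Nodup := ndD.filter _
        rw [hc] at h3
        exact List.Nodup.of_map _ h3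
      rw [hc, prt_len] at h1
      have := nodup_len h2
      omega
    obtain ⟨D', hD', hmiss⟩ := hex
    set w' := w.filter fun p => decide (¬ InR i m p) with hw'
    have hnL' := hnL D' hD' (fun p => ¬ InR i m p) ⟨p, hp, fun h => h hpR⟩
    have e0 : (w.filter fun p => @decide ((fun p => ¬ InR i m p) p)
        (Classical.propDecidable _)) = w' :=
      List.filter_congr fun p _ => decide_eq_decide.2 Iff.rfl
    rw [e0] at hnL'
    refine hnL' ?_
    intro u v hu hv huv hG
    have hBne : (prt i m a : List (Idx kx k)) ≠ [] := by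
      rw [← ha]
      intro h
      have h1 : p ∈ w.filter fun p => decide (InR i m p) :=
        List.mem_filter.2 ⟨hp, by simpa using hpR⟩
      rw [h] at h1
      simp at h1
    have hmw : Miss i m (w' ++ u ++ v) := by
      rw [miss_iff]
      intro q hq
      rcases List.mem_append.1 hq with hq | hq
      · rcases List.mem_append.1 hq with hq | hq
        · have := (List.mem_filter.1 hq).2
          simpa using this
        · exact hmiss q (huv.mem_iff.1 (List.mem_append.2 (Or.inl hq)))
      · exact hmiss q (huv.mem_iff.1 (List.mem_append.2 (Or.inr hq)))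
    have hG2 : Gen T (w' ++ u ++ v) (prt i m a) :=
      ⟨hBne, a, i, m, hand, (prt_len i m a).symm, hak, hmw, rfl⟩
    obtain ⟨-, a', i', m', c1, c2, c3, c4, c5⟩ :=
      hC kx k L T hA (w' ++ u) v (prt i m a) hG hG2
    refine hLk D' hD' u v hu hv huv ⟨hv, a', i', m', c1, c2, c3, ?_, ?_⟩
    · rw [miss_iff] at c4 ⊢
      intro q hq
      apply c4
      rcases List.mem_append.1 hq with hq | hq
      · by_cases hqR : InR i m q
        · refine List.mem_append.2 (Or.inr ?_)
          rw [← ha]
          exact List.mem_filter.2 ⟨hq, by simpa using hqR⟩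
        · exact List.mem_append.2 (Or.inl (List.mem_append.2 (Or.inl
            (List.mem_filter.2 ⟨hq, by simpa using hqR⟩))))
      · exact List.mem_append.2 (Or.inl (List.mem_append.2 (Or.inr hq)))
    · have hvl : v.length = (prt i' m' a' : List (Idx kx k)).length := by
        rw [prt_len]
        exact c2.symm
      have h1 := ft_zip hft
        ((w' ++ u ++ prt i m a).map (fun q => (q, q)) ++ v.zip (prt i' m' a'))
        ((w ++ u).map (fun q => (q, q)) ++ v.zip (prt i' m' a')) ?_ ?_
      · rw [(dbl (w ++ u) _ _ hvl).1, (dbl (w ++ u) _ _ hvl).2] at h1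
        exact h1
      · rw [(dbl (w' ++ u ++ prt i m a) _ _ hvl).1, (dbl (w' ++ u ++ prt i m a) _ _ hvl).2]
        exact c5
      · intro q hq
        rcases List.mem_append.1 hq with hq | hq
        · obtain ⟨q', hq', rfl⟩ := List.mem_map.1 hq
          refine List.mem_append.2 (Or.inl (List.mem_map.2 ⟨q', ?_, rfl⟩))
          rcases List.mem_append.1 hq' with hq' | hq'
          · by_cases hqR : InR i m q'
            · refine List.mem_append.2 (Or.inr ?_)
              rw [← ha]
              exact List.mem_filter.2 ⟨hq', by simpa using hqR⟩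
            · exact List.mem_append.2 (Or.inl (List.mem_append.2 (Or.inl
                (List.mem_filter.2 ⟨hq', by simpa using hqR⟩))))
          · exact List.mem_append.2 (Or.inl (List.mem_append.2 (Or.inr hq')))
        · exact List.mem_append.2 (Or.inr hq)
  -- step 2
  have hDsub : ∀ p ∈ D, p ∉ w := fun p hp hpw =>
    hdis p hpw p (List.mem_flatten.2 ⟨D, hD, hp⟩) rfl
  have hwm : Miss i m w := by
    rw [miss_iff]
    intro p hp hpR
    unfold Miss at hm
    push Not at hm
    obtain ⟨y, hy⟩ := hm
    exact hDsub _ hy (step1 ⟨p, hp, hpR⟩ y)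
  obtain ⟨a, ha⟩ := exists_prt (i := i) (m := m) (D.filter fun p => decide (InR i m p))
    fun p hp => by simpa using (List.mem_filter.1 hp).2
  have hand : a.Nodup := by
    have h1 : (D.filter fun p => decide (InR i m p)).Nodup := (ndDs.1 D hD).filter _
    rw [ha] at h1
    exact List.Nodup.of_map _ h1
  set u := D.filter fun p => decide (¬ InR i m p) with hu
  have hperm : (u ++ prt i m a).Perm D := by
    rw [← ha, hu]
    refine List.perm_append_comm.trans ?_
    have h1 := List.filter_append_perm (fun p => decide (InR i m p)) D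
    refine List.Perm.trans ?_ h1
    have h2 : (fun p : Idx kx k => decide (¬ InR i m p)) = fun p => !decide (InR i m p) := by
      funext p
      exact decide_not
    rw [h2]
  have hvne : (prt i m a : List (Idx kx k)) ≠ [] := by
    rw [← ha]
    intro h
    unfold Miss at hm
    push Not at hm
    obtain ⟨y, hy⟩ := hm
    have h1 : ((i, .inr (m, y)) : Idx kx k) ∈ D.filter fun p => decide (InR i m p) :=
      List.mem_filter.2 ⟨hy, by
        rw [decide_eq_true_iff]
        exact ⟨y, rfl⟩⟩
    rw [h] at h1
    simp at h1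
  have hlen := hperm.length_eq
  rw [List.length_append, prt_len, hS.lenD D hD] at hlen
  by_cases hune : u = []
  · rw [hune] at hperm hlen
    rw [List.nil_append] at hperm
    refine hperm.symm.trans ?_
    have hal : a.length = k := by simpa using hlen
    have h1 : a.Perm (List.finRange k) := by
      rw [List.perm_ext_iff_of_nodup hand (List.nodup_finRange k)]
      intro y
      exact ⟨fun _ => List.mem_finRange y, fun _ => full_of_len hand hal y⟩
    exact h1.map _
  · exfalso
    have hul : 0 < u.length := List.length_pos_iff.2 hune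
    refine hLk D hD u (prt i m a) hune hvne hperm
      ⟨hvne, a, i, m, hand, (prt_len i m a).symm, by omega, ?_, rfl⟩
    rw [miss_iff]
    intro q hq
    rcases List.mem_append.1 hq with hq | hq
    · exact (miss_iff.1 hwm) q hq
    · have := (List.mem_filter.1 hq).2
      simpa using this

end Pool.Agent.H75.FK.R1

namespace Pool.Agent.H75.FK

/-- RA1 -/
theorem pf_RA1 : Pool.Agent.H16.FK.T_COM → Pool.Agent.H16.FK.T_LKI → Pool.Agent.H16.FK.T_RA1 :=
  R1.pf_RA1

end Pool.Agent.H75.FK
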