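import Pool.Agent.H16.FK.TargetsA
import Pool.Agent.H75.FK.CMP

/-!
# Board hci_modules: RA3, the bags in late chunks
-/

set_option autoImplicit false

namespace Pool.Agent.H75.FK

open Set Pool.Agent.H75.HCI Pool.Agent.H16.FK

variable {kx k : ℕ} {L : Type} {T : List (Idx kx k) → L} {b0 : List (Fin kx)}

/-- Pattern preserving maps preserve standard families. -/
lemma sf_map (hT : PatInv T) {w : List (Idx kx k)} {Ds : List (List (Idx kx k))}
    (h : SF T b0 w Ds) {f : Idx kx k → Idx kx k} (hf : PatOn f {p | p ∈ w ++ Ds.flatten}) :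
    SF T b0 (w.map f) (Ds.map (List.map f)) := by
  have e : (w.map f) ++ (Ds.map (List.map f)).flatten = (w ++ Ds.flatten).map f := by
    rw [List.map_append, List.map_flatten]
  have hinj := (emb_of_pat (cl := id) hT hf).inj
  refine ⟨by rw [List.length_map]; exact h.len, by rw [List.length_map]; exact h.num, ?_, ?_, ?_⟩
  · intro D hD
    obtain ⟨E, hE, rfl⟩ := List.mem_map.1 hD
    rw [List.length_map]
    exact h.lenD E hE
  · rw [e]
    exact List.Nodup.map_on (fun x hx y hy hxy => hinj hx hy hxy) h.nd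
  · rw [e, hT f _ hf _ (fun p hp => hp)]
    exact h.lab

/-- `D` occurs in a standard family. -/
def OccI (T : List (Idx kx k) → L) (b0 : List (Fin kx)) (D : List (Idx kx k)) : Prop :=
  ∃ w Ds, SF T b0 w Ds ∧ ∃ E ∈ Ds, E.Perm D

/-- `D` consists of hub points. -/
def HubO (D : List (Idx kx k)) : Prop := ∀ p ∈ D, ∃ b, p.2 = .inl b

/-- `D` meets another set which occurs. -/
def Bad (T : List (Idx kx k) → L) (b0 : List (Fin kx)) (D : List (Idx kx k)) : Prop :=
  ∃ D', OccI T b0 D' ∧ ¬ D'.Perm D ∧ ¬ D'.Disjoint D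

lemma occI_of_occ {s : ℕ → ℕ} {D : List (Idx kx k)} (h : Occ T b0 s D) : OccI T b0 D := by
  obtain ⟨w, Ds, h1, -, -, h2⟩ := h
  exact ⟨w, Ds, h1, h2⟩

lemma occI_perm {D D' : List (Idx kx k)} (h : OccI T b0 D) (hp : D.Perm D') : OccI T b0 D' := by
  obtain ⟨w, Ds, h1, E, hE, h2⟩ := h
  exact ⟨w, Ds, h1, E, hE, h2.trans hp⟩

lemma occ_perm {s : ℕ → ℕ} {D D' : List (Idx kx k)} (h : Occ T b0 s D) (hp : D.Perm D') :
    Occ T b0 s D' := by
  obtain ⟨w, Ds, h1, h3, h4, E, hE, h2⟩ := h
  exact ⟨w, Ds, h1, h3, h4, E, hE, h2.trans hp⟩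

lemma disj_perm {D D' E : List (Idx kx k)} (hp : D.Perm D') (h : E.Disjoint D) :
    E.Disjoint D' := fun _ h1 h2 => h h1 (hp.mem_iff.2 h2)

lemma bag_perm {s : ℕ → ℕ} {D D' : List (Idx kx k)} (h : Bag T b0 s D) (hp : D.Perm D') :
    Bag T b0 s D' := by
  refine ⟨occ_perm h.1 hp, fun E hE => ?_⟩
  rcases h.2 E hE with h1 | h1
  · exact Or.inl (h1.trans hp)
  · exact Or.inr (disj_perm hp h1)

lemma bad_perm {D D' : List (Idx kx k)} (h : Bad T b0 D) (hp : D.Perm D') : Bad T b0 D' := by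
  obtain ⟨E, h1, h2, h3⟩ := h
  exact ⟨E, h1, fun h4 => h2 (h4.trans hp.symm), fun h4 => h3 (disj_perm hp.symm h4)⟩

lemma hubO_of_miss {D : List (Idx kx k)} (h : ∀ i m, Miss i m D) : HubO D := by
  rintro ⟨i, b | ⟨m, y⟩⟩ hp
  · exact ⟨b, rfl⟩
  · exact absurd hp (h i m y)

lemma hubO_perm {D D' : List (Idx kx k)} (h : HubO D) (hp : D.Perm D') : HubO D' :=
  fun p hp' => h p (hp.mem_iff.2 hp')

lemma len_flat {Ds : List (List (Idx kx k))} (h : ∀ D ∈ Ds, D.length = k) :
    Ds.flatten.length = Ds.length * k := by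
  induction Ds with
  | nil => simp
  | cons D Ds ih =>
    rw [List.flatten_cons, List.length_append, ih fun E hE => h E (List.mem_cons_of_mem _ hE),
      h D (List.mem_cons_self ..), List.length_cons, Nat.add_mul, Nat.one_mul, Nat.add_comm]

lemma sf_card {w : List (Idx kx k)} {Ds : List (List (Idx kx k))} (h : SF T b0 w Ds) :
    (w ++ Ds.flatten).toFinset.card ≤ b0.length + (k + 1) * k := by
  refine (List.toFinset_card_le _).trans ?_
  rw [List.length_append, h.len, len_flat h.lenD, h.num]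

/-- Compression. -/
lemma occ_of_occI (hT : PatInv T) {s : ℕ → ℕ} (hs : ∀ i, b0.length + (k + 1) * k ≤ s i)
    {D : List (Idx kx k)} (hD : HubO D) (h : OccI T b0 D) : Occ T b0 s D := by
  obtain ⟨w, Ds, h1, E, hE, hED⟩ := h
  have hF : ∀ p ∈ w ++ Ds.flatten, rcm (w ++ Ds.flatten).toFinset p ∈ V kx k s := fun p hp =>
    rcm_mem (fun j => (sf_card h1).trans (hs j)) (List.mem_toFinset.2 hp)
  have hpat : PatOn (rcm (w ++ Ds.flatten).toFinset) {p | p ∈ w ++ Ds.flatten} := by
    have h2 := patOn_rcm (w ++ Ds.flatten).toFinset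
    rw [List.coe_toFinset] at h2
    exact h2
  refine ⟨w.map (rcm (w ++ Ds.flatten).toFinset),
    Ds.map (List.map (rcm (w ++ Ds.flatten).toFinset)), sf_map hT h1 hpat, ?_, ?_,
    E.map (rcm (w ++ Ds.flatten).toFinset), List.mem_map_of_mem hE, ?_⟩
  · intro p hp
    obtain ⟨q, hq, rfl⟩ := List.mem_map.1 hp
    exact hF q (List.mem_append.2 (Or.inl hq))
  · intro E' hE' p hp
    obtain ⟨E1, hE1, rfl⟩ := List.mem_map.1 hE'
    obtain ⟨q, hq, rfl⟩ := List.mem_map.1 hp
    exact hF q (List.mem_append.2 (Or.inr (List.mem_flatten.2 ⟨E1, hE1, hq⟩)))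
  · have h3 : E.map (rcm (w ++ Ds.flatten).toFinset) = E := by
      conv_rhs => rw [← List.map_id E]
      refine List.map_congr_left fun p hp => ?_
      obtain ⟨b, hb⟩ := hD p (hED.mem_iff.1 hp)
      obtain ⟨i, z⟩ := p
      simp only at hb
      subst hb
      rfl
    rw [h3]
    exact hED

/-- A set which occurs and meets a set of hub points consists of hub points. -/
lemma hubO_of_meet (hR1 : T_RA1) (hA : AXP T) (hk : 1 ≤ k) (hW : W0 T b0)
    {D D' : List (Idx kx k)} (h : OccI T b0 D') (hm : ¬ D'.Disjoint D) (hD : HubO D) :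
    HubO D' := by
  obtain ⟨w, Ds, h1, E, hE, hED⟩ := h
  by_cases hmiss : ∀ i m, Miss i m E
  · exact hubO_perm (hubO_of_miss hmiss) hED
  · push Not at hmiss
    obtain ⟨i, m, h2⟩ := hmiss
    have h3 := hR1 kx k L T b0 hA hk hW w Ds h1 E hE i m h2
    exfalso
    apply hm
    intro p hp1 hp2
    obtain ⟨b, hb⟩ := hD p hp2
    have h4 : p ∈ row i m := h3.mem_iff.1 (hED.mem_iff.2 hp1)
    obtain ⟨y, -, rfl⟩ := List.mem_map.1 h4
    exact absurd hb (by simp)

lemma occI_sh (hT : PatInv T) {φ : ℕ → ℕ} (hφ : StrictMono φ) {D : List (Idx kx k)}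
    (h : OccI T b0 D) : OccI T b0 (D.map (sh φ)) := by
  obtain ⟨w, Ds, h1, E, hE, hED⟩ := h
  exact ⟨_, _, sf_map hT h1 (pat_sh hφ _), E.map (sh φ), List.mem_map_of_mem hE,
    hED.map _⟩

lemma occ_sh (hT : PatInv T) {s : ℕ → ℕ} (hs : StrictMono s) {φ : ℕ → ℕ} (hφ : StrictMono φ)
    {D : List (Idx kx k)} (h : Occ T b0 s D) : Occ T b0 s (D.map (sh φ)) := by
  obtain ⟨w, Ds, h1, h2, h3, E, hE, hED⟩ := h
  have hV : ∀ p ∈ V kx k s, sh φ p ∈ V kx k s := by
    intro p hp u hu
    have h4 : u.1 < s p.1 := hp u hu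
    exact h4.trans_le (hs.monotone (hφ.id_le _))
  refine ⟨_, _, sf_map hT h1 (pat_sh hφ _), ?_, ?_, E.map (sh φ), List.mem_map_of_mem hE,
    hED.map _⟩
  · intro p hp
    obtain ⟨q, hq, rfl⟩ := List.mem_map.1 hp
    exact hV q (h2 q hq)
  · intro E' hE' p hp
    obtain ⟨E1, hE1, rfl⟩ := List.mem_map.1 hE'
    obtain ⟨q, hq, rfl⟩ := List.mem_map.1 hp
    exact hV q (h3 E1 hE1 q hq)

lemma sh_injective {φ : ℕ → ℕ} (hφ : StrictMono φ) :
    Function.Injective (sh φ : Idx kx k → Idx kx k) := fun _ _ h => sh_inj hφ h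

lemma bad_sh (hT : PatInv T) {φ : ℕ → ℕ} (hφ : StrictMono φ) {D : List (Idx kx k)}
    (h : Bad T b0 D) : Bad T b0 (D.map (sh φ)) := by
  obtain ⟨D', h1, h2, h3⟩ := h
  refine ⟨D'.map (sh φ), occI_sh hT hφ h1, ?_, ?_⟩
  · rw [List.map_perm_map_iff (sh_injective hφ)]
    exact h2
  · intro h4
    apply h3
    intro p hp1 hp2
    exact h4 (List.mem_map_of_mem hp1) (List.mem_map_of_mem hp2)

/-- The shift of the chunks from `i` on. -/
def shf (i d c : ℕ) : ℕ := if c < i then c else c + d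

lemma shf_mono (i d : ℕ) : StrictMono (shf i d) := by
  intro a b hab
  unfold shf
  split_ifs <;> omega

lemma hub_sh (i d : ℕ) (J : List (Fin kx)) :
    (hub i J : List (Idx kx k)).map (sh (shf i d)) = hub (i + d) J := by
  unfold hub
  rw [List.map_map]
  refine List.map_congr_left fun b _ => ?_
  refine Prod.ext ?_ rfl
  change shf i d i = i + d
  unfold shf
  rw [if_neg (lt_irrefl i)]

lemma ev_const (P : ℕ → Prop) (h : ∀ i d, P i → P (i + d)) : ∃ i0, ∀ i, i0 ≤ i → (P i ↔ P i0) := by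
  by_cases hex : ∃ i, P i
  · obtain ⟨i0, h0⟩ := hex
    refine ⟨i0, fun i hi => ⟨fun _ => h0, fun _ => ?_⟩⟩
    have := h i0 (i - i0) h0
    rwa [Nat.add_sub_cancel' hi] at this
  · push Not at hex
    exact ⟨0, fun i _ => ⟨fun h1 => absurd h1 (hex i), fun h1 => absurd h1 (hex 0)⟩⟩

/-- The truth values are constant from some chunk on. -/
lemma exists_i0 (hT : PatInv T) (b0 : List (Fin kx)) : ∃ i0, ∀ i, i0 ≤ i →
    ∀ J : List (Fin kx), J.length = k →
      (OccI T b0 (hub i J) ↔ OccI T b0 (hub i0 J)) ∧ (Bad T b0 (hub i J) ↔ Bad T b0 (hub i0 J)) := by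
  have h1 : ∀ J : List (Fin kx), ∃ i1, ∀ i, i1 ≤ i →
      (OccI T b0 (hub i J) ↔ OccI T b0 (hub i1 J)) := fun J =>
    ev_const _ fun i d h => by
      have := occI_sh hT (shf_mono i d) h
      rwa [hub_sh] at this
  have h2 : ∀ J : List (Fin kx), ∃ i1, ∀ i, i1 ≤ i →
      (Bad T b0 (hub i J) ↔ Bad T b0 (hub i1 J)) := fun J =>
    ev_const _ fun i d h => by
      have := bad_sh hT (shf_mono i d) h
      rwa [hub_sh] at this
  choose f hf using h1
  choose f' hf' using h2
  obtain ⟨B, hB⟩ := ((List.finite_length_eq (Fin kx) k).image fun J => f J + f' J).bddAbove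
  refine ⟨B, fun i hi J hJ => ?_⟩
  have h3 : f J + f' J ≤ B := hB ⟨J, hJ, rfl⟩
  exact ⟨(hf J i (by omega)).trans (hf J B (by omega)).symm,
    (hf' J i (by omega)).trans (hf' J B (by omega)).symm⟩

lemma hub_inj (i : ℕ) : Function.Injective fun b : Fin kx => ((i, .inl b) : Idx kx k) := by
  intro b b' h
  exact Sum.inl.inj (Prod.ext_iff.1 h).2

lemma hub_perm {i : ℕ} {J J' : List (Fin kx)} :
    (hub i J' : List (Idx kx k)).Perm (hub i J) ↔ J'.Perm J :=
  List.map_perm_map_iff (hub_inj i)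

lemma hub_disj {i : ℕ} {J J' : List (Fin kx)} :
    (hub i J' : List (Idx kx k)).Disjoint (hub i J) ↔ J'.Disjoint J := by
  constructor
  · intro h b h1 h2
    exact h (List.mem_map_of_mem h1) (List.mem_map_of_mem h2)
  · intro h p h1 h2
    obtain ⟨b, hb, rfl⟩ := List.mem_map.1 h1
    obtain ⟨b', hb', e⟩ := List.mem_map.1 h2
    rw [hub_inj i e] at hb'
    exact h hb hb'

lemma hubO_hub (i : ℕ) (J : List (Fin kx)) : HubO (hub i J : List (Idx kx k)) := by
  intro p hp
  obtain ⟨b, -, rfl⟩ := List.mem_map.1 hp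
  exact ⟨b, rfl⟩

/-- RA3 -/
theorem pf_RA3 (hR1 : T_RA1) (hR2 : T_RA2) : T_RA3 := by
  classical
  intro kx k L T b0 hA hk hW
  have hT := hA.pat
  obtain ⟨i0, hi0⟩ := exists_i0 hT b0
  refine ⟨i0, b0.length + (k + 1) * k + (k + 1),
    fun J => J.Nodup ∧ J.length = k ∧ OccI T b0 (hub i0 J) ∧ ¬ Bad T b0 (hub i0 J),
    fun J hJ => ⟨hJ.1, hJ.2.1⟩, ?_, ?_, ?_⟩
  · rintro J J' ⟨h1, h2, h3, h4⟩ ⟨h1', h2', h3', h4'⟩
    by_contra hcon
    push Not at hcon
    refine h4 ⟨hub i0 J', h3', ?_, ?_⟩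
    · rw [hub_perm]
      exact hcon.1
    · rw [hub_disj]
      exact hcon.2
  · rintro J J' ⟨h1, h2, h3, h4⟩ hp
    refine ⟨hp.nodup_iff.2 h1, hp.length_eq.trans h2, occI_perm h3 (hub_perm.2 hp.symm),
      fun h5 => h4 (bad_perm h5 (hub_perm.2 hp))⟩
  · intro s hs hN D hD
    have hN1 : ∀ i, b0.length + (k + 1) * k ≤ s i := fun i => by
      have := hN i
      omega
    constructor
    · intro hB
      obtain ⟨w, Ds, h1, h2, h3, E, hE, hED⟩ := hB.1
      by_cases hmiss : ∀ i m, Miss i m E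
      · right
        have hH : HubO D := hubO_perm (hubO_of_miss hmiss) hED
        have hlen : D.length = k := by
          rw [← hED.length_eq]
          exact h1.lenD E hE
        have hnd : D.Nodup := by
          rw [← hED.nodup_iff]
          have h4 := (List.nodup_append.1 h1.nd).2.1
          exact (List.nodup_flatten.1 h4).1 E hE
        -- one chunk
        have hne : D ≠ [] := by
          intro h
          rw [h] at hlen
          simp at hlen
          omega
        obtain ⟨p0, hp0⟩ := List.exists_mem_of_ne_nil D hne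
        obtain ⟨p1, hp1, hmax⟩ := (D.toFinset).exists_max_image Prod.fst
          ⟨p0, List.mem_toFinset.2 hp0⟩
        rw [List.mem_toFinset] at hp1
        have hone : ∀ p ∈ D, p.1 = p1.1 := by
          by_contra hcon
          push Not at hcon
          obtain ⟨q, hq, hqne⟩ := hcon
          have hqlt : q.1 < p1.1 := by
            have := hmax q (List.mem_toFinset.2 hq)
            omega
          have hO := occ_sh hT hs (shf_mono p1.1 1) hB.1
          rcases hB.2 _ hO with h5 | h5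
          · have h6 : sh (shf p1.1 1) p1 ∈ D := h5.mem_iff.1 (List.mem_map_of_mem hp1)
            have h7 := hmax _ (List.mem_toFinset.2 h6)
            change shf p1.1 1 p1.1 ≤ p1.1 at h7
            unfold shf at h7
            rw [if_neg (lt_irrefl _)] at h7
            omega
          · have h6 : sh (shf p1.1 1) q = q := by
              refine Prod.ext ?_ rfl
              change shf p1.1 1 q.1 = q.1
              unfold shf
              rw [if_pos hqlt]
            refine h5 ?_ hq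
            have h7 := List.mem_map_of_mem (f := sh (shf p1.1 1)) hq
            rwa [h6] at h7
        have hkx : 0 < kx := by
          obtain ⟨b, -⟩ := hH p0 hp0
          exact b.pos
        set J : List (Fin kx) := D.map fun p => p.2.elim id fun _ => ⟨0, hkx⟩ with hJ
        have hDJ : D = hub p1.1 J := by
          unfold hub
          rw [hJ, List.map_map]
          conv_lhs => rw [← List.map_id D]
          refine List.map_congr_left fun p hp => ?_
          obtain ⟨b, hb⟩ := hH p hp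
          refine Prod.ext (hone p hp) ?_
          change p.2 = Sum.inl (p.2.elim id fun _ => ⟨0, hkx⟩)
          rw [hb]
          rfl
        have hJlen : J.length = k := by rw [hJ, List.length_map, hlen]
        have hJnd : J.Nodup := by
          rw [hDJ] at hnd
          exact List.Nodup.of_map _ hnd
        have hi1 : i0 ≤ p1.1 := (hD p1 hp1).1
        have hb1 := hi0 p1.1 hi1 J hJlen
        refine ⟨p1.1, J, ⟨hJnd, hJlen, hb1.1.1 ?_, fun h5 => ?_⟩, hDJ⟩
        · rw [← hDJ]
          exact occI_of_occ hB.1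
        · have h6 := hb1.2.2 h5
          rw [← hDJ] at h6
          obtain ⟨D', h7, h8, h9⟩ := h6
          have h10 := occ_of_occI hT hN1 (hubO_of_meet hR1 hA hk hW h7 h9 hH) h7
          rcases hB.2 D' h10 with h11 | h11
          · exact h8 h11
          · exact h9 h11
      · left
        push Not at hmiss
        obtain ⟨i, m, h4⟩ := hmiss
        exact ⟨i, m, hED.symm.trans (hR1 kx k L T b0 hA hk hW w Ds h1 E hE i m h4)⟩
    · rintro (⟨i, m, hp⟩ | ⟨i, J, ⟨hJnd, hJlen, hO, hNB⟩, rfl⟩)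
      · have hm : m < s i := by
          have h1 : ((i, .inr (m, ⟨0, hk⟩)) : Idx kx k) ∈ row i m :=
            List.mem_map.2 ⟨⟨0, hk⟩, List.mem_finRange _, rfl⟩
          exact (hD _ (hp.mem_iff.2 h1)).2 (m, ⟨0, hk⟩) rfl
        exact bag_perm (hR2 kx k L T b0 s hA hk hW (fun i => by
          have := hN i
          omega) i m hm) hp.symm
      · have hi1 : i0 ≤ i := by
          have hne : J ≠ [] := by
            intro h
            rw [h] at hJlen
            simp at hJlen
            omega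
          obtain ⟨b, hb⟩ := List.exists_mem_of_ne_nil J hne
          exact (hD _ (List.mem_map_of_mem hb)).1
        have hb1 := hi0 i hi1 J hJlen
        refine ⟨occ_of_occI hT hN1 (hubO_hub i J) (hb1.1.2 hO), fun D' hD' => ?_⟩
        by_contra hcon
        push Not at hcon
        exact hNB (hb1.2.1 ⟨D', occI_of_occ hD', hcon.1, hcon.2⟩)

end Pool.Agent.H75.FK
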