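import Pool.Agent.H16.FK.TargetsB

/-!
# Runs of programs: basic facts
-/

set_option autoImplicit false

namespace Pool.Agent.H75.FK

open Set Pool.Agent.H75.HCI Pool.Agent.H16.FK

variable {C : Type} {kc ku k : ℕ}

lemma ev_bind {A B : Type} {V : Ultrafilter A} {F : A → Ultrafilter B} {p : B → Prop} :
    (∀ᶠ y in (V.bind F : Filter B), p y) ↔
      ∀ᶠ x in (V : Filter A), ∀ᶠ y in (F x : Filter B), p y := Iff.rfl

lemma ev_map {A B : Type} {V : Ultrafilter A} {f : A → B} {p : B → Prop} :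
    (∀ᶠ y in (V.map f : Filter B), p y) ↔ ∀ᶠ x in (V : Filter A), p (f x) := Iff.rfl

lemma ev_pure {A : Type} {x : A} {p : A → Prop} :
    (∀ᶠ y in ((pure x : Ultrafilter A) : Filter A), p y) ↔ p x := by
  rw [Ultrafilter.coe_pure]
  exact Filter.eventually_pure

lemma ev_run_nil {D : Dat kc ku k} {st : Sta kc ku k} {p : Sta kc ku k → Prop} :
    (∀ᶠ s in (run D [] st : Filter (Sta kc ku k)), p s) ↔ p st := ev_pure

lemma ev_run_cons {D : Dat kc ku k} {it : ℕ × ℕ × ℕ} {σ : List (ℕ × ℕ × ℕ)} {st : Sta kc ku k}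
    {p : Sta kc ku k → Prop} :
    (∀ᶠ s in (run D (it :: σ) st : Filter (Sta kc ku k)), p s) ↔
      ∀ᶠ s1 in (step D it st : Filter (Sta kc ku k)),
        ∀ᶠ s in (run D σ s1 : Filter (Sta kc ku k)), p s := Iff.rfl

lemma ev_run_append {D : Dat kc ku k} {σ τ : List (ℕ × ℕ × ℕ)} {st : Sta kc ku k}
    {p : Sta kc ku k → Prop} :
    (∀ᶠ s in (run D (σ ++ τ) st : Filter (Sta kc ku k)), p s) ↔
      ∀ᶠ s1 in (run D σ st : Filter (Sta kc ku k)),
        ∀ᶠ s in (run D τ s1 : Filter (Sta kc ku k)), p s := by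
  induction σ generalizing st with
  | nil =>
    rw [ev_run_nil]
    rfl
  | cons it σ ih =>
    rw [ev_run_cons]
    change (∀ᶠ s1 in (step D it st : Filter (Sta kc ku k)),
      ∀ᶠ s in (run D (σ ++ τ) s1 : Filter (Sta kc ku k)), p s) ↔ _
    exact Filter.eventually_congr (Filter.Eventually.of_forall fun s1 => ih)

/-- The run does not depend on the marks. -/
lemma run_mk' (D : Dat kc ku k) (z : List ℕ) (σ : List (ℕ × ℕ × ℕ)) (st : Sta kc ku k) :
    run (D.mk' z) σ st = run D σ st := by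
  induction σ generalizing st with
  | nil => rfl
  | cons it σ ih =>
    change (step (D.mk' z) it st).bind (run (D.mk' z) σ) = (step D it st).bind (run D σ)
    have h1 : run (D.mk' z) σ = run D σ := funext ih
    rw [h1]
    rfl

/-- A step changes only the points of its chunk. -/
lemma step_keep (D : Dat kc ku k) (it : ℕ × ℕ × ℕ) (st : Sta kc ku k) :
    ∀ᶠ s in (step D it st : Filter (Sta kc ku k)),
      (∀ p : Idx (kc + ku) k, p.1 ≠ it.1 → s.pt p = st.pt p) ∧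
        ∀ i, i ≠ it.1 → s.j i = st.j i := by
  unfold step
  split_ifs
  · rw [ev_map]
    refine Filter.Eventually.of_forall fun j => ⟨fun p hp => if_neg hp, fun i hi => ?_⟩
    exact Function.update_of_ne hi ..
  · rw [ev_map]
    exact Filter.Eventually.of_forall fun y => ⟨fun p hp => if_neg hp, fun i _ => rfl⟩
  · rw [ev_map]
    exact Filter.Eventually.of_forall fun y => ⟨fun p hp => if_neg hp, fun i _ => rfl⟩

lemma run_keep (D : Dat kc ku k) (σ : List (ℕ × ℕ × ℕ)) (st : Sta kc ku k) :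
    ∀ᶠ s in (run D σ st : Filter (Sta kc ku k)),
      (∀ p : Idx (kc + ku) k, (∀ it ∈ σ, it.1 ≠ p.1) → s.pt p = st.pt p) ∧
        ∀ i, (∀ it ∈ σ, it.1 ≠ i) → s.j i = st.j i := by
  induction σ generalizing st with
  | nil =>
    rw [ev_run_nil]
    exact ⟨fun _ _ => rfl, fun _ _ => rfl⟩
  | cons it σ ih =>
    rw [ev_run_cons]
    filter_upwards [step_keep D it st] with s1 h1
    filter_upwards [ih s1] with s h2
    refine ⟨fun p hp => ?_, fun i hi => ?_⟩
    · rw [h2.1 p fun it' h => hp it' (List.mem_cons_of_mem _ h)]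
      exact h1.1 p fun h => hp it (List.mem_cons_self ..) h.symm
    · rw [h2.2 i fun it' h => hi it' (List.mem_cons_of_mem _ h)]
      exact h1.2 i fun h => hi it (List.mem_cons_self ..) h.symm

/-- The programs of complete chunks. -/
def bxs (cs : List ℕ) (s : ℕ) : List (ℕ × ℕ × ℕ) :=
  cs.flatMap fun i => (i, 0, 0) :: ((List.range s).map fun m => (i, 1, m)) ++ [(i, 2, 0)]

lemma box_eq (n s : ℕ) : box n s = bxs (List.range n) s := rfl

lemma mem_bxs {cs : List ℕ} {s : ℕ} {it : ℕ × ℕ × ℕ} : it ∈ bxs cs s ↔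
    it.1 ∈ cs ∧ (it.2 = (0, 0) ∨ (∃ m < s, it.2 = (1, m)) ∨ it.2 = (2, 0)) := by
  obtain ⟨i, t, m⟩ := it
  unfold bxs
  simp only [List.mem_flatMap, List.mem_append, List.mem_cons, List.mem_map, List.mem_range,
    List.not_mem_nil, or_false, Prod.mk.injEq]
  constructor
  · rintro ⟨c, hc, (⟨rfl, rfl, rfl⟩ | ⟨m', h1, rfl, rfl, rfl⟩) | ⟨rfl, rfl, rfl⟩⟩
    · exact ⟨hc, Or.inl ⟨rfl, rfl⟩⟩
    · exact ⟨hc, Or.inr (Or.inl ⟨_, h1, rfl, rfl⟩)⟩
    · exact ⟨hc, Or.inr (Or.inr ⟨rfl, rfl⟩)⟩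
  · rintro ⟨hc, ⟨rfl, rfl⟩ | ⟨m', h1, rfl, rfl⟩ | ⟨rfl, rfl⟩⟩
    · exact ⟨i, hc, Or.inl (Or.inl ⟨rfl, rfl, rfl⟩)⟩
    · exact ⟨i, hc, Or.inl (Or.inr ⟨_, h1, rfl, rfl, rfl⟩)⟩
    · exact ⟨i, hc, Or.inr ⟨rfl, rfl, rfl⟩⟩

lemma bxs_append (cs cs' : List ℕ) (s : ℕ) : bxs (cs ++ cs') s = bxs cs s ++ bxs cs' s :=
  List.flatMap_append ..

lemma box_add (n n' s : ℕ) :
    box (n + n') s = box n s ++ bxs ((List.range n').map fun i => n + i) s := by
  rw [box_eq, box_eq, List.range_add, bxs_append]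

lemma ord_bxs {cs : List ℕ} (h : cs.Pairwise (· < ·)) (s : ℕ) : (bxs cs s).Pairwise ilt := by
  unfold bxs
  rw [List.pairwise_flatMap]
  constructor
  · intro i _
    rw [List.pairwise_append, List.pairwise_cons]
    refine ⟨⟨?_, ?_⟩, List.pairwise_singleton .., ?_⟩
    · intro a ha
      obtain ⟨m, -, rfl⟩ := List.mem_map.1 ha
      exact Or.inr ⟨rfl, Or.inl (by norm_num)⟩
    · rw [List.pairwise_map]
      exact List.pairwise_lt_range.imp fun h1 => Or.inr ⟨rfl, Or.inr ⟨rfl, h1⟩⟩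
    · intro a ha b hb
      rw [List.mem_singleton] at hb
      subst hb
      rcases List.mem_cons.1 ha with rfl | ha
      · exact Or.inr ⟨rfl, Or.inl (by norm_num)⟩
      · obtain ⟨m, -, rfl⟩ := List.mem_map.1 ha
        exact Or.inr ⟨rfl, Or.inl (by norm_num)⟩
  · refine h.imp fun {i j} hij a ha b hb => ?_
    have h1 : a.1 = i := by
      simp only [List.mem_append, List.mem_cons, List.mem_map, List.not_mem_nil, or_false] at ha
      rcases ha with (rfl | ⟨m, -, rfl⟩) | rfl <;> rfl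
    have h2 : b.1 = j := by
      simp only [List.mem_append, List.mem_cons, List.mem_map, List.not_mem_nil, or_false] at hb
      rcases hb with (rfl | ⟨m, -, rfl⟩) | rfl <;> rfl
    exact Or.inl (by rw [h1, h2]; exact hij)

lemma prg_bxs {cs : List ℕ} (h : cs.Pairwise (· < ·)) (s : ℕ) : Prg ∅ (bxs cs s) := by
  refine ⟨ord_bxs h s, fun a ha => ?_, fun _ _ _ hb => absurd hb (notMem_empty _), fun a ha => ?_⟩
  · obtain ⟨i, t, m⟩ := a
    obtain ⟨-, h1 | ⟨m', -, h1⟩ | h1⟩ := mem_bxs.1 ha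
    · obtain ⟨rfl, rfl⟩ := Prod.mk.injEq .. ▸ h1
      exact ⟨by norm_num, fun _ => rfl⟩
    · obtain ⟨rfl, rfl⟩ := Prod.mk.injEq .. ▸ h1
      exact ⟨by norm_num, fun h => absurd rfl h⟩
    · obtain ⟨rfl, rfl⟩ := Prod.mk.injEq .. ▸ h1
      exact ⟨le_rfl, fun _ => rfl⟩
  · exact Or.inl (mem_bxs.2 ⟨(mem_bxs.1 ha).1, Or.inl rfl⟩)

lemma prg_box (n s : ℕ) : Prg ∅ (box n s) := prg_bxs List.pairwise_lt_range s

/-- The item of a point is in the program. -/
lemma itp_bxs {cs : List ℕ} {s : ℕ} {p : Idx (kc + ku) k} (h1 : p.1 ∈ cs)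
    (h2 : ∀ q, p.2 = .inr q → q.1 < s) : itp p ∈ bxs cs s := by
  rw [mem_bxs]
  refine ⟨h1, ?_⟩
  unfold itp
  obtain ⟨i, b | q⟩ := p
  · simp only [Sum.elim_inl]
    split_ifs
    · exact Or.inl rfl
    · exact Or.inr (Or.inr rfl)
  · exact Or.inr (Or.inl ⟨q.1, h2 q rfl, rfl⟩)

lemma le_bnd {kx k : ℕ} {l : List (Idx kx k)} {p : Idx kx k} (hp : p ∈ l) :
    p.1 + 1 + Sum.elim (fun _ => 0) (fun q : ℕ × Fin k => q.1 + 1) p.2 ≤ bnd l := by
  unfold bnd
  exact List.single_le_sum (fun _ _ => Nat.zero_le _) _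
    (List.mem_map_of_mem (f := fun p : Idx kx k =>
      p.1 + 1 + Sum.elim (fun _ => 0) (fun q : ℕ × Fin k => q.1 + 1) p.2) hp)

lemma itp_box {l : List (Idx (kc + ku) k)} {n s : ℕ} (hn : bnd l ≤ n) (hs : bnd l ≤ s)
    {p : Idx (kc + ku) k} (hp : p ∈ l) : itp p ∈ box n s := by
  have h1 := le_bnd hp
  refine itp_bxs (List.mem_range.2 (by omega)) fun q hq => ?_
  rw [hq] at h1
  simp only [Sum.elim_inr] at h1
  omega

lemma exists_ofFn {α : Type} (l : List α) (n : ℕ) (h : l.length = n) :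
    ∃ f : Fin n → α, List.ofFn f = l := by
  subst h
  exact ⟨l.get, List.ofFn_get l⟩

end Pool.Agent.H75.FK
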